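import Pool.Agent.R672.DS.Geo

namespace Pool.Agent.R672.DS

variable {d : ℕ}

/-- The data of a lattice path as in `PathOK`. -/
structure PD (d L ρ : ℕ) (W : ℕ → Fin (d + 1) → ℤ) (a : ℕ → Fin (d + 1)) (σ : ℕ → ℤ) : Prop where
  w0 : W 0 = 0
  wL : W L = Pi.single 0 (ρ : ℤ)
  sg : ∀ i, σ i = 1 ∨ σ i = -1
  st : ∀ i, i < L → W (i + 1) = mv (W i) (a i) (σ i)
  inj : ∀ i j, i ≤ L → j ≤ L → W i = W j → i = j
  a0 : a 0 = 0
  s0 : σ 0 = 1
  aL : a (L - 1) = 0
  sL : σ (L - 1) = 1
  reg : ∀ i, i < L →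
      (a i = 0 ∧ σ i = 1 ∧ (∀ c, c ≠ 0 → W i c = 0) ∧ 0 ≤ W i 0 ∧ W i 0 + 1 ≤ ρ) ∨
      (1 ≤ W i 0 ∧ W i 0 + 1 ≤ ρ ∧
        ∀ c, c ≠ 0 → 4 * (|W i c| + 1) ≤ W i 0 - 1 ∧ 4 * (|W i c| + 1) ≤ ρ - W i 0 - 1)

lemma exists_PD {d L ρ : ℕ} (h : PathOK d L ρ) : ∃ W a σ, PD d L ρ W a σ := by
  obtain ⟨W, a, σ, h1, h2, h3, h4, h5, h6, h7, h8, h9, h10⟩ := h
  exact ⟨W, a, σ, h1, h2, h3, h4, h5, h6, h7, h8, h9, h10⟩

/-- A finite piece of the sequence, of duration `T` and length `s`. -/
structure Block (P : ℕ → Fin (d + 1) → ℝ) (T : ℕ) (s : ℝ) (F : ℕ → ℝ) (c1 c2 C1 C2 : ℝ) :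
    Prop where
  z : P 0 = 0
  e : P T = Pi.single 0 s
  inK : ∀ n, n ≤ T → InK s (P n)
  lowS : ∀ n, n ≤ T → 1 ≤ n → c1 * F n ≤ P n 0
  lowE : ∀ n, n < T → c1 * F (T - n) ≤ s - P n 0
  upS : ∀ n, n ≤ T → 1 ≤ n → P n 0 ≤ C1 * F n
  upE : ∀ n, n < T → s - P n 0 ≤ C1 * F (T - n)
  low : ∀ m n, m < n → n ≤ T → c2 * F (n - m) ≤ dist (P m) (P n)
  up : ∀ m n, m < n → n ≤ T → dist (P m) (P n) ≤ C2 * F (n - m)

/-- Replace every edge of the lattice path `W` by a rotated copy of `P`. -/
def stepF (T : ℕ) (s : ℝ) (W : ℕ → Fin (d + 1) → ℤ) (a : ℕ → Fin (d + 1)) (σ : ℕ → ℤ)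
    (P : ℕ → Fin (d + 1) → ℝ) : ℕ → Fin (d + 1) → ℝ :=
  fun n => pt s (W (n / T)) (a (n / T)) (σ (n / T)) (P (n % T))

lemma stepF_eq {T L ρ : ℕ} {s : ℝ} {W : ℕ → Fin (d + 1) → ℤ} {a : ℕ → Fin (d + 1)} {σ : ℕ → ℤ}
    {P : ℕ → Fin (d + 1) → ℝ} (hT : 1 ≤ T) (pd : PD d L ρ W a σ) (h0 : P 0 = 0)
    (hPT : P T = Pi.single 0 s) (i r : ℕ) (hi : i < L) (hr : r ≤ T) :
    stepF T s W a σ P (i * T + r) = pt s (W i) (a i) (σ i) (P r) := by
  rcases Nat.lt_or_ge r T with h | h
  · have h1 : (i * T + r) / T = i := by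
      rw [Nat.add_comm, Nat.add_mul_div_right _ _ (by omega), Nat.div_eq_of_lt h, Nat.zero_add]
    have h2 : (i * T + r) % T = r := by
      rw [Nat.add_comm, Nat.add_mul_mod_self_right, Nat.mod_eq_of_lt h]
    simp only [stepF, h1, h2]
  · have hrT : r = T := le_antisymm hr h
    subst hrT
    have h0' : i * r + r = (i + 1) * r := by ring
    have h1 : (i * r + r) / r = i + 1 := by
      rw [h0']; exact Nat.mul_div_cancel _ (by omega)
    have h2 : (i * r + r) % r = 0 := by
      rw [h0']; exact Nat.mul_mod_left _ _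
    simp only [stepF, h1, h2, h0, hPT]
    funext c
    simp only [pt, rot_zero, Pi.zero_apply, add_zero]
    rw [pd.st i hi]
    by_cases hc : c = a i
    · rw [hc, mv_same, rot_at, Pi.single_eq_same]
      push_cast; ring
    · rw [mv_ne _ _ _ _ hc]
      simp only [rot]
      rw [if_neg hc]
      split_ifs with hc0
      · subst hc0
        rw [Pi.single_eq_of_ne (fun h => hc h.symm), add_zero]
      · rw [Pi.single_eq_of_ne hc0, add_zero]

lemma region {L ρ : ℕ} {s : ℝ} {W : ℕ → Fin (d + 1) → ℤ} {a : ℕ → Fin (d + 1)} {σ : ℕ → ℤ}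
    (hd : 1 ≤ d) (hs : 0 < s) (pd : PD d L ρ W a σ) {y : Fin (d + 1) → ℝ} (hy : InK s y)
    (i : ℕ) (hi : i < L) :
    InK (ρ * s) (pt s (W i) (a i) (σ i) y) ∧ (1 ≤ i → s ≤ pt s (W i) (a i) (σ i) y 0) ∧
      (i + 1 < L → pt s (W i) (a i) (σ i) y 0 ≤ ρ * s - s) := by
  rcases pd.reg i hi with ⟨ha, hσ, hW, h0, h1⟩ | ⟨h0, h1, hW⟩
  · have hX0 : pt s (W i) (a i) (σ i) y 0 = s * (W i 0 : ℝ) + y 0 := by
      simp [pt, ha, hσ, rot_id]
    have hXc : ∀ c, c ≠ 0 → pt s (W i) (a i) (σ i) y c = y c := by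
      intro c hc
      simp [pt, ha, hσ, rot_id, hW c hc]
    have h0' : (0 : ℝ) ≤ W i 0 := by exact_mod_cast h0
    have h1' : (W i 0 : ℝ) + 1 ≤ ρ := by exact_mod_cast h1
    have hm : s * ((W i 0 : ℝ) + 1) ≤ s * ρ := mul_le_mul_of_nonneg_left h1' hs.le
    have hm0 : 0 ≤ s * (W i 0 : ℝ) := mul_nonneg hs.le h0'
    refine ⟨⟨?_, ?_, ?_⟩, ?_, ?_⟩
    · rw [hX0]; linarith [hy.1]
    · rw [hX0]; linarith [hy.2.1]
    · intro c hc
      rw [hXc c hc, hX0]
      have := hy.2.2 c hc
      constructor <;> linarith [this.1, this.2]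
    · intro hi1
      have hne : W i 0 ≠ 0 := by
        intro h
        have : W i = W 0 := by
          rw [pd.w0]
          funext c
          by_cases hc : c = 0
          · rw [hc, h]; rfl
          · rw [hW c hc]; rfl
        have := pd.inj i 0 hi.le (Nat.zero_le _) this
        omega
      have h2 : (1 : ℤ) ≤ W i 0 := by omega
      have h2' : (1 : ℝ) ≤ W i 0 := by exact_mod_cast h2
      have := mul_le_mul_of_nonneg_left h2' hs.le
      rw [hX0]; linarith [hy.1]
    · intro hi1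
      have hne : W i 0 + 1 ≠ ρ := by
        intro h
        have : W (i + 1) = W L := by
          rw [pd.st i hi, pd.wL, ha, hσ]
          funext c
          by_cases hc : c = 0
          · rw [hc, mv_same, h]; simp
          · rw [mv_ne _ _ _ _ hc, hW c hc, Pi.single_eq_of_ne hc]
        have := pd.inj (i + 1) L (by omega) le_rfl this
        omega
      have h2 : W i 0 + 2 ≤ ρ := by omega
      have h2' : (W i 0 : ℝ) + 2 ≤ ρ := by exact_mod_cast h2
      have := mul_le_mul_of_nonneg_left h2' hs.le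
      rw [hX0]; linarith [hy.2.1]
  · have hX : ∀ c, |pt s (W i) (a i) (σ i) y c - s * (W i c : ℝ)| ≤ s := by
      intro c
      simp only [pt, add_sub_cancel_left]
      exact rot_le hy _ _ (pd.sg i) c
    have hX0 := abs_le.mp (hX 0)
    have key : ∀ c, c ≠ 0 → 4 * |pt s (W i) (a i) (σ i) y c| ≤ s * (W i 0 : ℝ) - s ∧
        4 * |pt s (W i) (a i) (σ i) y c| ≤ ρ * s - s * (W i 0 : ℝ) - s := by
      intro c hc
      have h2 := hW c hc
      have h3 : (4 : ℝ) * (|(W i c : ℝ)| + 1) ≤ W i 0 - 1 := by exact_mod_cast h2.1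
      have h4 : (4 : ℝ) * (|(W i c : ℝ)| + 1) ≤ ρ - W i 0 - 1 := by exact_mod_cast h2.2
      have h5 : |pt s (W i) (a i) (σ i) y c| ≤ s + s * |(W i c : ℝ)| := by
        have h6 : pt s (W i) (a i) (σ i) y c =
            (pt s (W i) (a i) (σ i) y c - s * (W i c : ℝ)) + s * (W i c : ℝ) := by ring
        rw [h6]
        refine (abs_add_le _ _).trans ?_
        rw [abs_mul, abs_of_pos hs]
        linarith [hX c]
      have h7 := mul_le_mul_of_nonneg_left h3 hs.le
      have h8 := mul_le_mul_of_nonneg_left h4 hs.le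
      constructor <;> nlinarith
    have h10 : ((⟨1, by omega⟩ : Fin (d + 1))) ≠ 0 := by
      intro h; have := congrArg Fin.val h; simp at this
    have h11 := hW _ h10
    have h12 := abs_nonneg (W i ⟨1, by omega⟩)
    have h13 : (5 : ℤ) ≤ W i 0 := by omega
    have h14 : W i 0 + 5 ≤ (ρ : ℤ) := by omega
    have h13' : (5 : ℝ) ≤ W i 0 := by exact_mod_cast h13
    have h14' : (W i 0 : ℝ) + 5 ≤ ρ := by exact_mod_cast h14
    have h15 := mul_le_mul_of_nonneg_left h13' hs.le
    have h16 := mul_le_mul_of_nonneg_left h14' hs.le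
    refine ⟨⟨by linarith, by linarith, ?_⟩, fun _ => by linarith, fun _ => by linarith⟩
    intro c hc
    have := key c hc
    constructor <;> linarith [this.1, this.2]

lemma diam {S : ℝ} {y y' : Fin (d + 1) → ℝ} (hy : InK S y) (hy' : InK S y') : dist y y' ≤ S := by
  have hS : 0 ≤ S := hy.1.trans hy.2.1
  rw [dist_pi_le_iff hS]
  intro c
  rw [Real.dist_eq]
  by_cases hc : c = 0
  · subst hc
    rw [abs_le]
    constructor <;> linarith [hy.1, hy.2.1, hy'.1, hy'.2.1]
  · have h1 := hy.2.2 c hc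
    have h2 := hy'.2.2 c hc
    have := abs_sub (y c) (y' c)
    linarith [h1.1, h1.2, h2.1, h2.2]

theorem block_step {T L ρ : ℕ} {s : ℝ} {W : ℕ → Fin (d + 1) → ℤ} {a : ℕ → Fin (d + 1)}
    {σ : ℕ → ℤ} {P : ℕ → Fin (d + 1) → ℝ} {F : ℕ → ℝ} {c1 c2 C1 C2 K Λ : ℝ}
    (hd : 1 ≤ d) (hT : 1 ≤ T) (hs : 0 < s) (hL : 1 ≤ L) (pd : PD d L ρ W a σ)
    (hB : Block P T s F c1 c2 C1 C2)
    (Fpos : ∀ n, 1 ≤ n → 0 < F n) (Fmono : ∀ m n, 1 ≤ m → m ≤ n → F m ≤ F n)
    (FK : ∀ a b, 1 ≤ a → 1 ≤ b → F (a + b) ≤ K * max (F a) (F b))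
    (hc1 : 0 < c1) (hc2 : 0 < c2) (hΛ1 : F (L * T) ≤ Λ * s) (hΛ2 : ρ * s ≤ Λ * F T)
    (k1 : c1 * Λ ≤ 1) (k2 : Λ ≤ C1) (k3 : c2 * K ≤ 3 / 4 * c1) (k4 : c2 * Λ ≤ 3 / 4)
    (k5 : 2 * C1 ≤ C2) (k6 : Λ ≤ C2) :
    Block (stepF T s W a σ P) (L * T) (ρ * s) F c1 c2 C1 C2 := by
  have hFT : 0 < F T := Fpos T hT
  have hLT : 1 ≤ L * T := Nat.one_le_iff_ne_zero.mpr (by positivity)
  have hFLT : 0 < F (L * T) := Fpos _ hLT
  have hΛ : 0 < Λ := by
    by_contra h
    push Not at h
    nlinarith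
  have eq : ∀ i r, i < L → r ≤ T → stepF T s W a σ P (i * T + r) = pt s (W i) (a i) (σ i) (P r) :=
    fun i r hi hr => stepF_eq hT pd hB.z hB.e i r hi hr
  have eq0 : ∀ r, r ≤ T → stepF T s W a σ P r = P r := by
    intro r hr
    have h := eq 0 r (by omega) hr
    rw [Nat.zero_mul, Nat.zero_add] at h
    rw [h, pd.w0, pd.a0, pd.s0]
    funext c
    simp [pt, rot_id]
  have repS : ∀ n, 1 ≤ n → n ≤ L * T → ∃ i r, i < L ∧ 1 ≤ r ∧ r ≤ T ∧ n = i * T + r := by
    intro n h1 h2
    refine ⟨(n - 1) / T, (n - 1) % T + 1, ?_, by omega, ?_, ?_⟩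
    · rw [Nat.div_lt_iff_lt_mul (by omega)]; omega
    · have := Nat.mod_lt (n - 1) (show 0 < T by omega); omega
    · have := Nat.div_add_mod (n - 1) T
      rw [Nat.mul_comm] at this
      omega
  have repE : ∀ n, n < L * T → ∃ i r, i < L ∧ r < T ∧ n = i * T + r := by
    intro n h2
    refine ⟨n / T, n % T, ?_, Nat.mod_lt _ (by omega), ?_⟩
    · rw [Nat.div_lt_iff_lt_mul (by omega)]; exact h2
    · have := Nat.div_add_mod n T
      rw [Nat.mul_comm] at this
      omega
  have hlast : ∀ r, r ≤ T → ρ * s - stepF T s W a σ P ((L - 1) * T + r) 0 = s - P r 0 := by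
    intro r hr
    rw [eq (L - 1) r (by omega) hr]
    have h1 := pd.st (L - 1) (by omega)
    rw [show L - 1 + 1 = L by omega, pd.wL, pd.aL, pd.sL] at h1
    have h2 := congrFun h1 0
    rw [mv_same, Pi.single_eq_same] at h2
    have h3 : ((W (L - 1) 0 : ℤ) : ℝ) = ρ - 1 := by
      have : (ρ : ℤ) = W (L - 1) 0 + 1 := h2
      have h4 : ((ρ : ℤ) : ℝ) = ((W (L - 1) 0 + 1 : ℤ) : ℝ) := by rw [this]
      push_cast at h4
      linarith
    simp only [pt, pd.aL, pd.sL, Int.cast_one, rot_id, h3]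
    ring
  have hFle : ∀ n, 1 ≤ n → n ≤ L * T → F n ≤ Λ * s := fun n h1 h2 => (Fmono n _ h1 h2).trans hΛ1
  have hTF : ∀ n, T ≤ n → ρ * s ≤ Λ * F n := fun n h1 =>
    hΛ2.trans (mul_le_mul_of_nonneg_left (Fmono T n hT h1) hΛ.le)
  refine ⟨?_, ?_, ?_, ?_, ?_, ?_, ?_, ?_, ?_⟩
  · rw [eq0 0 (by omega), hB.z]
  · have h := eq (L - 1) T (by omega) le_rfl
    have h1 : (L - 1) * T + T = L * T := by
      obtain ⟨l, rfl⟩ : ∃ l, L = l + 1 := ⟨L - 1, by omega⟩
      simp; ring
    rw [h1] at h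
    rw [h, hB.e, pd.aL, pd.sL]
    have h2 := pd.st (L - 1) (by omega)
    rw [show L - 1 + 1 = L by omega, pd.wL, pd.aL, pd.sL] at h2
    funext c
    simp only [pt, Int.cast_one, rot_id]
    by_cases hc : c = 0
    · subst hc
      have h3 := congrFun h2 0
      rw [mv_same, Pi.single_eq_same] at h3
      have h4 : ((ρ : ℤ) : ℝ) = ((W (L - 1) 0 + 1 : ℤ) : ℝ) := by rw [h3]
      push_cast at h4
      rw [Pi.single_eq_same, Pi.single_eq_same, h4]; ring
    · have h3 := congrFun h2 c
      rw [mv_ne _ _ _ _ hc, Pi.single_eq_of_ne hc] at h3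
      rw [Pi.single_eq_of_ne hc, Pi.single_eq_of_ne hc, ← h3]; simp
  · intro n hn
    rcases Nat.eq_zero_or_pos n with h0 | h0
    · subst h0
      rw [eq0 0 (by omega), hB.z]
      refine ⟨le_rfl, by simp only [Pi.zero_apply]; positivity, ?_⟩
      intro c _
      simp only [Pi.zero_apply, abs_zero, mul_zero, sub_zero]
      exact ⟨le_rfl, by positivity⟩
    · obtain ⟨i, r, hi, h1, h2, h3⟩ := repS n h0 hn
      rw [h3, eq i r hi h2]
      exact (region hd hs pd (hB.inK r h2) i hi).1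
  · intro n hn h0
    obtain ⟨i, r, hi, h1, h2, h3⟩ := repS n h0 hn
    rcases Nat.eq_zero_or_pos i with hi0 | hi0
    · subst hi0
      rw [Nat.zero_mul, Nat.zero_add] at h3
      subst h3
      rw [eq0 n h2]
      exact hB.lowS n h2 h1
    · have hr := (region hd hs pd (hB.inK r h2) i hi).2.1 hi0
      rw [← eq i r hi h2, ← h3] at hr
      refine le_trans ?_ hr
      calc c1 * F n ≤ c1 * (Λ * s) := mul_le_mul_of_nonneg_left (hFle n h0 hn) hc1.le
        _ = (c1 * Λ) * s := by ring
        _ ≤ 1 * s := mul_le_mul_of_nonneg_right k1 hs.le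
        _ = s := one_mul s
  · intro n hn
    obtain ⟨i, r, hi, h2, h3⟩ := repE n hn
    rcases Nat.lt_or_ge (i + 1) L with hi1 | hi1
    · have hr := (region hd hs pd (hB.inK r h2.le) i hi).2.2 hi1
      rw [← eq i r hi h2.le, ← h3] at hr
      have h4 : c1 * F (L * T - n) ≤ s := by
        calc c1 * F (L * T - n) ≤ c1 * (Λ * s) :=
              mul_le_mul_of_nonneg_left (hFle _ (by omega) (by omega)) hc1.le
          _ = (c1 * Λ) * s := by ring
          _ ≤ 1 * s := mul_le_mul_of_nonneg_right k1 hs.le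
          _ = s := one_mul s
      linarith
    · have hiL : i = L - 1 := by omega
      subst hiL
      rw [h3, hlast r h2.le]
      have h4 : L * T - ((L - 1) * T + r) = T - r := by
        obtain ⟨l, rfl⟩ : ∃ l, L = l + 1 := ⟨L - 1, by omega⟩
        have : (l + 1) * T = l * T + T := by ring
        simp only [Nat.add_sub_cancel]
        omega
      rw [h4]
      exact hB.lowE r h2
  · intro n hn h0
    obtain ⟨i, r, hi, h1, h2, h3⟩ := repS n h0 hn
    rcases Nat.eq_zero_or_pos i with hi0 | hi0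
    · subst hi0
      rw [Nat.zero_mul, Nat.zero_add] at h3
      subst h3
      rw [eq0 n h2]
      exact hB.upS n h2 h1
    · have hr := (region hd hs pd (hB.inK r h2) i hi).1.2.1
      rw [← eq i r hi h2, ← h3] at hr
      have hTn : T ≤ n := by
        rw [h3]; nlinarith
      refine hr.trans ((hTF n hTn).trans ?_)
      exact mul_le_mul_of_nonneg_right k2 (Fpos n h0).le
  · intro n hn
    obtain ⟨i, r, hi, h2, h3⟩ := repE n hn
    rcases Nat.lt_or_ge (i + 1) L with hi1 | hi1
    · have hr := (region hd hs pd (hB.inK r h2.le) i hi).1.1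
      rw [← eq i r hi h2.le, ← h3] at hr
      have hTn : T ≤ L * T - n := by
        have h5 : (i + 2) * T ≤ L * T := Nat.mul_le_mul_right _ (by omega)
        have h6 : (i + 2) * T = i * T + T + T := by ring
        omega
      have h7 := hTF _ hTn
      have h8 : Λ * F (L * T - n) ≤ C1 * F (L * T - n) :=
        mul_le_mul_of_nonneg_right k2 (Fpos _ (by omega)).le
      linarith
    · have hiL : i = L - 1 := by omega
      subst hiL
      rw [h3, hlast r h2.le]
      have h4 : L * T - ((L - 1) * T + r) = T - r := by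
        obtain ⟨l, rfl⟩ : ∃ l, L = l + 1 := ⟨L - 1, by omega⟩
        have : (l + 1) * T = l * T + T := by ring
        simp only [Nat.add_sub_cancel]
        omega
      rw [h4]
      exact hB.upE r h2
  · intro m n hmn hn
    obtain ⟨i, r, hi, hr, h3⟩ := repE m (by omega)
    obtain ⟨i', r', hi', h1', hr', h3'⟩ := repS n (by omega) hn
    have hii : i ≤ i' := by
      by_contra hlt
      push Not at hlt
      have : (i' + 1) * T ≤ i * T := Nat.mul_le_mul_right _ hlt
      have h6 : (i' + 1) * T = i' * T + T := by ring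
      omega
    rw [h3, h3', eq i r hi hr.le, eq i' r' hi' hr']
    rcases Nat.lt_or_ge i i' with hlt | hge
    · rcases Nat.lt_or_ge (i + 1) i' with hlt2 | hge2
      · have hf := far hs (hB.inK r hr.le) (hB.inK r' hr') (W i) (W i') (a i) (a i') (σ i) (σ i')
          (pd.sg i) (pd.sg i')
          (fun h => by have := pd.inj i i' (by omega) (by omega) h; omega)
          (fun h => by
            rw [← pd.st i' hi'] at h
            have := pd.inj i (i' + 1) (by omega) (by omega) h; omega)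
          (fun h => by
            rw [← pd.st i hi] at h
            have := pd.inj (i + 1) i' (by omega) (by omega) h; omega)
          (fun h => by
            rw [← pd.st i hi, ← pd.st i' hi'] at h
            have := pd.inj (i + 1) (i' + 1) (by omega) (by omega) h; omega)
        refine le_trans ?_ hf
        rw [← h3, ← h3']
        calc c2 * F (n - m) ≤ c2 * (Λ * s) :=
              mul_le_mul_of_nonneg_left (hFle _ (by omega) (by omega)) hc2.le
          _ = (c2 * Λ) * s := by ring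
          _ ≤ 3 / 4 * s := mul_le_mul_of_nonneg_right k4 hs.le
      · have hi'e : i' = i + 1 := by omega
        subst hi'e
        have hst := pd.st i hi
        have hj := junction_low (hB.inK r hr.le) (hB.inK r' hr') (W i) (a i) (a (i + 1)) (σ i)
          (σ (i + 1)) (pd.sg i) (pd.sg (i + 1)) (fun h => by
            rw [← hst, ← pd.st (i + 1) hi'] at h
            have := pd.inj (i + 1 + 1) i (by omega) (by omega) h; omega)
        rw [← hst] at hj
        refine le_trans ?_ hj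
        have h6 : (i + 1) * T = i * T + T := by ring
        have h7 : (i + 1) * T + r' - (i * T + r) = (T - r) + r' := by omega
        rw [h7]
        have h8 := FK (T - r) r' (by omega) h1'
        have h9 : c1 * max (F (T - r)) (F r') ≤ max (s - P r 0) (P r' 0) := by
          rw [mul_max_of_nonneg _ _ hc1.le]
          exact max_le_max (hB.lowE r hr) (hB.lowS r' hr' h1')
        have h10 : 0 ≤ max (F (T - r)) (F r') :=
          le_trans (Fpos r' h1').le (le_max_right _ _)
        calc c2 * F (T - r + r') ≤ c2 * (K * max (F (T - r)) (F r')) :=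
              mul_le_mul_of_nonneg_left h8 hc2.le
          _ = (c2 * K) * max (F (T - r)) (F r') := by ring
          _ ≤ (3 / 4 * c1) * max (F (T - r)) (F r') := mul_le_mul_of_nonneg_right k3 h10
          _ = 3 / 4 * (c1 * max (F (T - r)) (F r')) := by ring
          _ ≤ 3 / 4 * max (s - P r 0) (P r' 0) := by linarith
    · have hie : i = i' := by omega
      subst hie
      rw [pt_dist _ _ _ _ (pd.sg i)]
      have h7 : i * T + r' - (i * T + r) = r' - r := by omega
      rw [h7]
      exact hB.low r r' (by omega) hr'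
  · intro m n hmn hn
    obtain ⟨i, r, hi, hr, h3⟩ := repE m (by omega)
    obtain ⟨i', r', hi', h1', hr', h3'⟩ := repS n (by omega) hn
    have hii : i ≤ i' := by
      by_contra hlt
      push Not at hlt
      have : (i' + 1) * T ≤ i * T := Nat.mul_le_mul_right _ hlt
      have h6 : (i' + 1) * T = i' * T + T := by ring
      omega
    rw [h3, h3', eq i r hi hr.le, eq i' r' hi' hr']
    rcases Nat.lt_or_ge i i' with hlt | hge
    · rcases Nat.lt_or_ge (i + 1) i' with hlt2 | hge2
      · have hdm := diam (region hd hs pd (hB.inK r hr.le) i hi).1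
          (region hd hs pd (hB.inK r' hr') i' hi').1
        refine hdm.trans ?_
        rw [← h3, ← h3']
        have hTn : T ≤ n - m := by
          have h5 : (i + 2) * T ≤ i' * T := Nat.mul_le_mul_right _ (by omega)
          have h6 : (i + 2) * T = i * T + T + T := by ring
          omega
        refine (hTF _ hTn).trans ?_
        exact mul_le_mul_of_nonneg_right k6 (Fpos _ (by omega)).le
      · have hi'e : i' = i + 1 := by omega
        subst hi'e
        have hst := pd.st i hi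
        have hj := junction_up (hB.inK r hr.le) (hB.inK r' hr') (W i) (a i) (a (i + 1)) (σ i)
          (σ (i + 1)) (pd.sg i) (pd.sg (i + 1))
        rw [← hst] at hj
        refine hj.trans ?_
        have h6 : (i + 1) * T = i * T + T := by ring
        have h7 : (i + 1) * T + r' - (i * T + r) = (T - r) + r' := by omega
        rw [h7]
        have h8 := hB.upE r hr
        have h9 := hB.upS r' hr' h1'
        have h10 := Fmono (T - r) (T - r + r') (by omega) (by omega)
        have h11 := Fmono r' (T - r + r') (by omega) (by omega)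
        have hC1 : 0 ≤ C1 := hΛ.le.trans k2
        have h12 := mul_le_mul_of_nonneg_left h10 hC1
        have h13 := mul_le_mul_of_nonneg_left h11 hC1
        have h14 := mul_le_mul_of_nonneg_right k5 (Fpos (T - r + r') (by omega)).le
        linarith
    · have hie : i = i' := by omega
      subst hie
      rw [pt_dist _ _ _ _ (pd.sg i)]
      have h7 : i * T + r' - (i * T + r) = r' - r := by omega
      rw [h7]
      exact hB.up r r' (by omega) hr'

end Pool.Agent.R672.DS
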