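import Pool.Agent.R672.DS.Defs

/-! # Module COUNT: counting points of a porous set in subcubes -/

namespace Pool.Agent.R672.DS

theorem floor_bounds {a t s : ℝ} {L : ℕ} (hL : 0 < (L : ℝ)) (hs : 0 < s) (h0 : a ≤ t) :
    a + (⌊(t - a) * L / s⌋₊ : ℝ) * (s / L) ≤ t ∧
      t < a + ((⌊(t - a) * L / s⌋₊ : ℝ) + 1) * (s / L) := by
  have hnn : 0 ≤ (t - a) * L / s := by
    have : 0 ≤ t - a := by linarith
    positivity
  have h1 := Nat.floor_le hnn
  have h2 := Nat.lt_floor_add_one ((t - a) * L / s)
  have hsl : 0 < s / L := div_pos hs hL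
  have hkey : (t - a) * L / s * (s / L) = t - a := by field_simp
  constructor
  · have := mul_le_mul_of_nonneg_right h1 hsl.le
    rw [hkey] at this
    linarith
  · have := mul_lt_mul_of_pos_right h2 hsl
    rw [hkey] at this
    linarith

theorem floor_lt_L {a t s : ℝ} {L : ℕ} (hL : 0 < (L : ℝ)) (hs : 0 < s) (h0 : a ≤ t)
    (h1 : t < a + s) : ⌊(t - a) * L / s⌋₊ < L := by
  have hnn : 0 ≤ (t - a) * L / s := by
    have : 0 ≤ t - a := by linarith
    positivity
  rw [Nat.floor_lt hnn, div_lt_iff₀ hs]
  have : t - a < s := by linarith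
  nlinarith

theorem stmCount : StmCount := by
  intro k _hk p η R₀ ⟨hη0, hη1, hR0, hhole⟩
  obtain ⟨L, hL⟩ := exists_nat_ge (max 2 (8 / η))
  have hL2' : (2 : ℝ) ≤ L := le_trans (le_max_left _ _) hL
  have hL2 : 2 ≤ L := by exact_mod_cast hL2'
  have hLpos : (0 : ℝ) < L := by linarith
  have hLη : 8 ≤ η * L := by
    have h := le_trans (le_max_right _ _) hL
    rw [div_le_iff₀ hη0] at h
    linarith
  refine ⟨L, 8 * R₀, hL2, by positivity, ?_⟩
  intro j
  induction j with
  | zero =>
    intro x s δ G hs _ hsδ hG hsep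
    simp only [pow_zero, mul_one] at hsδ ⊢
    rw [Finset.card_le_one]
    intro g hg h hh
    by_contra hne
    have h1 := hsep g hg h hh hne
    have h2 : dist (p g) (p h) < s := by
      rw [dist_pi_lt_iff hs]
      intro c
      rw [Real.dist_eq, abs_lt]
      have := hG g hg c
      have := hG h hh c
      constructor <;> linarith
    linarith
  | succ j ih =>
    intro x s δ G hs hRs hsδ hG hsep
    have hRs' : 8 * R₀ * (L : ℝ) ^ j ≤ s := by
      have : (8 * R₀ * (L : ℝ) ^ j) * L ≤ s * L := by
        calc (8 * R₀ * (L : ℝ) ^ j) * L = 8 * R₀ * (L : ℝ) ^ (j + 1) := by ring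
          _ ≤ s * L := hRs
      exact le_of_mul_le_mul_right this hLpos
    have hpow : (1 : ℝ) ≤ (L : ℝ) ^ j := one_le_pow₀ (by linarith)
    have hRs1 : 8 * R₀ ≤ s := by
      calc 8 * R₀ = 8 * R₀ * 1 := by ring
        _ ≤ 8 * R₀ * (L : ℝ) ^ j := by
          apply mul_le_mul_of_nonneg_left hpow; positivity
        _ ≤ s := hRs'
    obtain ⟨z, hzy, hz⟩ := hhole (fun c => x c + s / 2) (s / 4) (by linarith)
    have hzc : ∀ c, x c ≤ z c ∧ z c < x c + s := by
      intro c
      have := (dist_pi_le_iff (by linarith : (0:ℝ) ≤ s / 4)).1 hzy c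
      rw [Real.dist_eq, abs_le] at this
      constructor <;> linarith [this.1, this.2]
    set F : ℕ → (Fin k → ℕ) := fun g c => ⌊(p g c - x c) * L / s⌋₊ with hF
    set ι : Fin k → ℕ := fun c => ⌊(z c - x c) * L / s⌋₊ with hι
    have himg : G.image F ⊆ (Fintype.piFinset (fun _ : Fin k => Finset.range L)).erase ι := by
      intro v hv
      rw [Finset.mem_image] at hv
      obtain ⟨g, hg, rfl⟩ := hv
      rw [Finset.mem_erase]
      constructor
      · intro hEq
        have hd : dist (p g) z < s / L := by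
          rw [dist_pi_lt_iff (div_pos hs hLpos)]
          intro c
          have hc : ⌊(p g c - x c) * L / s⌋₊ = ⌊(z c - x c) * L / s⌋₊ := congrFun hEq c
          have b1 := floor_bounds hLpos hs (hG g hg c).1
          have b2 := floor_bounds hLpos hs (hzc c).1
          rw [hc] at b1
          rw [Real.dist_eq, abs_lt]
          constructor <;> nlinarith [b1.1, b1.2, b2.1, b2.2]
        have h1 := hz g
        have h2 : s / L ≤ η * (s / 4) := by
          rw [div_le_iff₀ hLpos]
          nlinarith
        linarith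
      · rw [Fintype.mem_piFinset]
        intro c
        rw [Finset.mem_range]
        exact floor_lt_L hLpos hs (hG g hg c).1 (hG g hg c).2
    have hιmem : ι ∈ Fintype.piFinset (fun _ : Fin k => Finset.range L) := by
      rw [Fintype.mem_piFinset]
      intro c
      rw [Finset.mem_range]
      exact floor_lt_L hLpos hs (hzc c).1 (hzc c).2
    have hcard : (G.image F).card ≤ L ^ k - 1 := by
      refine (Finset.card_le_card himg).trans ?_
      rw [Finset.card_erase_of_mem hιmem, Fintype.card_piFinset]
      simp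
    have hfib : ∀ v ∈ G.image F, (G.filter (fun g => F g = v)).card ≤ (L ^ k - 1) ^ j := by
      intro v _hv
      apply ih (fun c => x c + (v c : ℝ) * (s / L)) (s / L) δ
      · exact div_pos hs hLpos
      · rw [div_mul_cancel₀ _ hLpos.ne']
        exact hRs'
      · rw [div_le_iff₀ hLpos]
        calc s ≤ δ * (L : ℝ) ^ (j + 1) := hsδ
          _ = δ * (L : ℝ) ^ j * L := by ring
      · intro g hg c
        rw [Finset.mem_filter] at hg
        have b1 := floor_bounds hLpos hs (hG g hg.1 c).1
        have hc : ⌊(p g c - x c) * L / s⌋₊ = v c := congrFun hg.2 c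
        rw [hc] at b1
        refine ⟨b1.1, ?_⟩
        have := b1.2
        calc p g c < x c + ((v c : ℝ) + 1) * (s / L) := this
          _ = x c + (v c : ℝ) * (s / L) + s / L := by ring
      · intro g hg h hh hne
        rw [Finset.mem_filter] at hg hh
        exact hsep g hg.1 h hh.1 hne
    have hfinal := Finset.card_le_mul_card_image G ((L ^ k - 1) ^ j) hfib
    calc G.card ≤ (L ^ k - 1) ^ j * (G.image F).card := hfinal
      _ ≤ (L ^ k - 1) ^ j * (L ^ k - 1) := Nat.mul_le_mul_left _ hcard
      _ = (L ^ k - 1) ^ (j + 1) := by ring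

end Pool.Agent.R672.DS
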