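import Mathlib

/-!
# Distortion rates of sequences in Euclidean space (MP_bf2d93_gt)

Definitions and the statements of the modules.
-/

namespace Pool.Agent.R672.DS

/-- A rate function: positive, nondecreasing, unbounded and scaling invariant on `{1, 2, ...}`
(the value at `0` is never used). -/
def IsRate (f : ℕ → ℝ) : Prop :=
  (∀ n, 1 ≤ n → 0 < f n) ∧ (∀ m n, 1 ≤ m → m ≤ n → f m ≤ f n) ∧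
  (∀ b : ℝ, ∃ n, 1 ≤ n ∧ b < f n) ∧
  (∀ M : ℕ, 1 ≤ M → ∃ c C : ℝ, 0 < c ∧ c ≤ C ∧ ∃ N₀ : ℕ, ∀ N, N₀ ≤ N → 1 ≤ N →
    c * f N ≤ f (M * N) ∧ f (M * N) ≤ C * f N)

/-- The rate `f` is realizable in the metric space `X` with index set `I ⊆ ℤ`: there is a
sequence `(p n)`, `n ∈ I`, with `A f(|n-m|) ≤ d(p_n, p_m) ≤ B f(|n-m|)` whenever
`|n - m| ≥ N₀`. -/
def Realizable (X : Type*) [MetricSpace X] (I : Set ℤ) (f : ℕ → ℝ) : Prop :=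
  ∃ (p : ℤ → X) (A B : ℝ) (N₀ : ℕ), 0 < A ∧ 0 < B ∧ 1 ≤ N₀ ∧
    ∀ m ∈ I, ∀ n ∈ I, N₀ ≤ (n - m).natAbs →
      A * f (n - m).natAbs ≤ dist (p n) (p m) ∧ dist (p n) (p m) ≤ B * f (n - m).natAbs

/-- The criterion: `f(N)/N` is almost nonincreasing, and `f(N)/f(M) ≥ (N/M)^(1/k+ε)/C`. -/
def Crit (k : ℕ) (f : ℕ → ℝ) : Prop :=
  ∃ (C ε : ℝ) (N₀ : ℕ), 0 < C ∧ 0 < ε ∧ 1 ≤ N₀ ∧ ∀ M N : ℕ, N₀ ≤ M → M ≤ N →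
    f N / N ≤ C * (f M / M) ∧ ((N : ℝ) / M) ^ (1 / (k : ℝ) + ε) * f M ≤ C * f N

/-! ## Module statements -/

/-- `f`-distorted one-sided sequence in the sup metric of `Fin k → ℝ`. -/
def Dist (k : ℕ) (f : ℕ → ℝ) (p : ℕ → Fin k → ℝ) (A B : ℝ) (N₀ : ℕ) : Prop :=
  0 < A ∧ 0 < B ∧ 1 ≤ N₀ ∧ ∀ m n : ℕ, m + N₀ ≤ n →
    A * f (n - m) ≤ dist (p m) (p n) ∧ dist (p m) (p n) ≤ B * f (n - m)

/-- Every ball of large radius `R` contains a point at distance `≥ η R` from the sequence. -/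
def Hole (k : ℕ) (p : ℕ → Fin k → ℝ) (η R₀ : ℝ) : Prop :=
  0 < η ∧ η < 1 ∧ 0 < R₀ ∧ ∀ (y : Fin k → ℝ) (R : ℝ), R₀ ≤ R →
    ∃ z : Fin k → ℝ, dist z y ≤ R ∧ ∀ n, η * R ≤ dist (p n) z

/-- Module HOLE. -/
def StmHole : Prop :=
  ∀ (k : ℕ), 2 ≤ k → ∀ f : ℕ → ℝ, IsRate f → ∀ (p : ℕ → Fin k → ℝ) (A B : ℝ) (N₀ : ℕ),
    Dist k f p A B N₀ → ∃ η R₀ : ℝ, Hole k p η R₀

/-- Module COUNT. -/
def StmCount : Prop :=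
  ∀ (k : ℕ), 1 ≤ k → ∀ (p : ℕ → Fin k → ℝ) (η R₀ : ℝ), Hole k p η R₀ →
    ∃ (L : ℕ) (R₁ : ℝ), 2 ≤ L ∧ 0 < R₁ ∧ ∀ (j : ℕ) (x : Fin k → ℝ) (s δ : ℝ) (G : Finset ℕ),
      0 < s → R₁ * (L : ℝ) ^ j ≤ s * L → s ≤ δ * (L : ℝ) ^ j →
      (∀ g ∈ G, ∀ c, x c ≤ p g c ∧ p g c < x c + s) →
      (∀ g ∈ G, ∀ h ∈ G, g ≠ h → δ ≤ dist (p g) (p h)) →
      G.card ≤ (L ^ k - 1) ^ j

/-- Module NEC (uses HOLE and COUNT). -/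
def StmNec : Prop :=
  StmHole → StmCount → ∀ (k : ℕ), 2 ≤ k → ∀ f : ℕ → ℝ, IsRate f →
    ∀ (p : ℕ → Fin k → ℝ) (A B : ℝ) (N₀ : ℕ), Dist k f p A B N₀ → Crit k f

/-- Module ONE (dimension one). -/
def StmOne : Prop :=
  ∀ f : ℕ → ℝ, IsRate f → ∀ (p : ℕ → Fin 1 → ℝ) (A B : ℝ) (N₀ : ℕ),
    Dist 1 f p A B N₀ → ∃ (c C : ℝ) (N₁ : ℕ), 0 < c ∧ ∀ N, N₁ ≤ N → c * N ≤ f N ∧ f N ≤ C * N

/-- A self-avoiding lattice path of length `L` from `0` to `ρ e₀` in `ℤ^(d+1)`, each of whose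
edges is either a forward edge on the axis, or starts at a point deep inside the double cone. -/
def PathOK (d L ρ : ℕ) : Prop :=
  ∃ (W : ℕ → Fin (d + 1) → ℤ) (a : ℕ → Fin (d + 1)) (σ : ℕ → ℤ),
    W 0 = 0 ∧ W L = Pi.single 0 (ρ : ℤ) ∧ (∀ i, σ i = 1 ∨ σ i = -1) ∧
    (∀ i, i < L → W (i + 1) = W i + Pi.single (a i) (σ i)) ∧
    (∀ i j, i ≤ L → j ≤ L → W i = W j → i = j) ∧
    a 0 = 0 ∧ σ 0 = 1 ∧ a (L - 1) = 0 ∧ σ (L - 1) = 1 ∧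
    (∀ i, i < L →
      (a i = 0 ∧ σ i = 1 ∧ (∀ c, c ≠ 0 → W i c = 0) ∧ 0 ≤ W i 0 ∧ W i 0 + 1 ≤ ρ) ∨
      (1 ≤ W i 0 ∧ W i 0 + 1 ≤ ρ ∧
        ∀ c, c ≠ 0 → 4 * (|W i c| + 1) ≤ W i 0 - 1 ∧ 4 * (|W i c| + 1) ≤ ρ - W i 0 - 1))

/-- Module PATH. -/
def StmPath : Prop :=
  ∀ d m ρ L : ℕ, 1 ≤ d → 2 ≤ m → 16 * m + 11 ≤ ρ → Odd ρ → Odd L → ρ ≤ L →
    L + 1 ≤ 4 * m ^ (d + 1) → PathOK d L ρ

end Pool.Agent.R672.DS
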