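import Pool.Agent.R672.DS.Defs

namespace Pool.Agent.R672.DS

variable {d : ℕ}

/-- Signed swap of the coordinates `0` and `a`. -/
def rot (a : Fin (d + 1)) (s : ℝ) (x : Fin (d + 1) → ℝ) : Fin (d + 1) → ℝ :=
  fun c => if c = a then s * x 0 else if c = 0 then x a else x c

lemma rot_zero (a : Fin (d + 1)) (s : ℝ) : rot a s 0 = 0 := by
  funext c
  simp [rot]

lemma rot_id (x : Fin (d + 1) → ℝ) : rot 0 1 x = x := by
  funext c
  by_cases h : c = 0
  · subst h; simp [rot]
  · simp [rot, h]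

lemma rot_sub (a : Fin (d + 1)) (s : ℝ) (x y : Fin (d + 1) → ℝ) :
    rot a s x - rot a s y = rot a s (x - y) := by
  funext c
  simp only [rot, Pi.sub_apply]
  split_ifs <;> ring

lemma norm_rot (a : Fin (d + 1)) (s : ℝ) (hs : |s| = 1) (x : Fin (d + 1) → ℝ) :
    ‖rot a s x‖ = ‖x‖ := by
  apply le_antisymm
  · rw [pi_norm_le_iff_of_nonneg (norm_nonneg _)]
    intro c
    simp only [rot]
    split_ifs
    · rw [norm_mul, Real.norm_eq_abs s, hs, one_mul]; exact norm_le_pi_norm x 0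
    · exact norm_le_pi_norm x a
    · exact norm_le_pi_norm x c
  · rw [pi_norm_le_iff_of_nonneg (norm_nonneg _)]
    intro c
    by_cases hc0 : c = 0
    · subst hc0
      have h := norm_le_pi_norm (rot a s x) a
      simp only [rot, if_true, norm_mul, Real.norm_eq_abs s, hs, one_mul] at h
      exact h
    · by_cases hca : c = a
      · subst hca
        have h := norm_le_pi_norm (rot c s x) 0
        simp only [rot] at h
        rw [if_neg (fun h' => hc0 h'.symm)] at h
        simpa using h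
      · have h := norm_le_pi_norm (rot a s x) c
        simp only [rot] at h
        rw [if_neg hca, if_neg hc0] at h
        exact h

lemma dist_rot (a : Fin (d + 1)) (s : ℝ) (hs : |s| = 1) (x y : Fin (d + 1) → ℝ) :
    dist (rot a s x) (rot a s y) = dist x y := by
  rw [dist_eq_norm, dist_eq_norm, rot_sub, norm_rot a s hs]

/-- One lattice step. -/
def mv (w : Fin (d + 1) → ℤ) (a : Fin (d + 1)) (σ : ℤ) : Fin (d + 1) → ℤ := w + Pi.single a σ

lemma mv_same (w : Fin (d + 1) → ℤ) (a : Fin (d + 1)) (σ : ℤ) : mv w a σ a = w a + σ := by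
  simp [mv]

lemma mv_ne (w : Fin (d + 1) → ℤ) (a : Fin (d + 1)) (σ : ℤ) (c : Fin (d + 1)) (hc : c ≠ a) :
    mv w a σ c = w c := by
  simp [mv, hc]

/-- The double cone of length `s`. -/
def InK (s : ℝ) (y : Fin (d + 1) → ℝ) : Prop :=
  0 ≤ y 0 ∧ y 0 ≤ s ∧ ∀ c, c ≠ 0 → 4 * |y c| ≤ y 0 ∧ 4 * |y c| ≤ s - y 0

/-- The point `s w + rot a σ y`. -/
def pt (s : ℝ) (w : Fin (d + 1) → ℤ) (a : Fin (d + 1)) (σ : ℤ) (y : Fin (d + 1) → ℝ) :
    Fin (d + 1) → ℝ := fun c => s * (w c : ℝ) + rot a (σ : ℝ) y c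

lemma pt_dist (s : ℝ) (w : Fin (d + 1) → ℤ) (a : Fin (d + 1)) (σ : ℤ) (hσ : σ = 1 ∨ σ = -1)
    (y y' : Fin (d + 1) → ℝ) : dist (pt s w a σ y) (pt s w a σ y') = dist y y' := by
  have hs : |(σ : ℝ)| = 1 := by rcases hσ with rfl | rfl <;> simp
  rw [← dist_rot a (σ : ℝ) hs y y', dist_eq_norm, dist_eq_norm]
  congr 1
  funext c
  simp [pt]

lemma rot_small {s : ℝ} {y : Fin (d + 1) → ℝ} (hy : InK s y) (a : Fin (d + 1)) (σ : ℤ)
    (c : Fin (d + 1)) (hc : c ≠ a) :
    4 * |rot a (σ : ℝ) y c| ≤ y 0 ∧ 4 * |rot a (σ : ℝ) y c| ≤ s - y 0 := by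
  simp only [rot]
  rw [if_neg hc]
  split_ifs with h0
  · subst h0
    exact hy.2.2 a (fun h => hc h.symm)
  · exact hy.2.2 c h0

lemma rot_at (a : Fin (d + 1)) (σ : ℝ) (y : Fin (d + 1) → ℝ) : rot a σ y a = σ * y 0 := by
  simp [rot]

lemma rot_le {s : ℝ} {y : Fin (d + 1) → ℝ} (hy : InK s y) (a : Fin (d + 1)) (σ : ℤ)
    (hσ : σ = 1 ∨ σ = -1) (c : Fin (d + 1)) : |rot a (σ : ℝ) y c| ≤ s := by
  by_cases hc : c = a
  · subst hc
    rw [rot_at, abs_mul]
    have hs : |(σ : ℝ)| = 1 := by rcases hσ with rfl | rfl <;> simp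
    rw [hs, one_mul, abs_of_nonneg hy.1]
    exact hy.2.1
  · have := rot_small hy a σ c hc
    have h1 := hy.1
    have h2 := hy.2.1
    have h3 := abs_nonneg (rot a (σ : ℝ) y c)
    linarith [this.1]

lemma pt_upper {s : ℝ} (hs : 0 < s) {y : Fin (d + 1) → ℝ} (hy : InK s y)
    (w : Fin (d + 1) → ℤ) (a : Fin (d + 1)) (σ : ℤ) (hσ : σ = 1 ∨ σ = -1) (c : Fin (d + 1))
    (M : ℤ) (h1 : w c ≤ M) (h2 : (mv w a σ) c ≤ M) :
    pt s w a σ y c ≤ s * M + s / 8 := by
  have hwc : (w c : ℝ) ≤ M := by exact_mod_cast h1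
  by_cases hc : c = a
  · subst hc
    simp only [pt, rot_at]
    rw [mv_same] at h2
    have h2' : (w c : ℝ) + σ ≤ M := by exact_mod_cast h2
    rcases hσ with rfl | rfl
    · have := hy.2.1
      push_cast at h2' ⊢
      nlinarith [hy.1]
    · have := hy.1
      push_cast at h2' ⊢
      nlinarith [hy.1]
  · simp only [pt]
    have h := rot_small hy a σ c hc
    have h3 := le_abs_self (rot a (σ : ℝ) y c)
    nlinarith [h.1, h.2]

lemma pt_lower {s : ℝ} (hs : 0 < s) {y : Fin (d + 1) → ℝ} (hy : InK s y)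
    (w : Fin (d + 1) → ℤ) (a : Fin (d + 1)) (σ : ℤ) (hσ : σ = 1 ∨ σ = -1) (c : Fin (d + 1))
    (M : ℤ) (h1 : M ≤ w c) (h2 : M ≤ (mv w a σ) c) :
    s * M - s / 8 ≤ pt s w a σ y c := by
  have hwc : (M : ℝ) ≤ w c := by exact_mod_cast h1
  by_cases hc : c = a
  · subst hc
    simp only [pt, rot_at]
    rw [mv_same] at h2
    have h2' : (M : ℝ) ≤ (w c : ℝ) + σ := by exact_mod_cast h2
    rcases hσ with rfl | rfl
    · have := hy.1
      push_cast at h2' ⊢
      nlinarith [hy.1]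
    · have := hy.2.1
      push_cast at h2' ⊢
      nlinarith [hy.1]
  · simp only [pt]
    have h := rot_small hy a σ c hc
    have h3 := neg_abs_le (rot a (σ : ℝ) y c)
    nlinarith [h.1, h.2]

lemma gap (w v : Fin (d + 1) → ℤ) (a b : Fin (d + 1)) (σ τ : ℤ) (hσ : σ = 1 ∨ σ = -1)
    (hτ : τ = 1 ∨ τ = -1) (h1 : w ≠ v) (h2 : w ≠ mv v b τ)
    (h3 : mv w a σ ≠ v) (h4 : mv w a σ ≠ mv v b τ) :
    ∃ c, (w c + 1 ≤ v c ∧ w c + 1 ≤ (mv v b τ) c ∧ (mv w a σ) c + 1 ≤ v c ∧
        (mv w a σ) c + 1 ≤ (mv v b τ) c) ∨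
      (v c + 1 ≤ w c ∧ (mv v b τ) c + 1 ≤ w c ∧ v c + 1 ≤ (mv w a σ) c ∧
        (mv v b τ) c + 1 ≤ (mv w a σ) c) := by
  by_contra hno
  have hno' : ∀ c, ¬ ((w c + 1 ≤ v c ∧ w c + 1 ≤ (mv v b τ) c ∧ (mv w a σ) c + 1 ≤ v c ∧
        (mv w a σ) c + 1 ≤ (mv v b τ) c) ∨
      (v c + 1 ≤ w c ∧ (mv v b τ) c + 1 ≤ w c ∧ v c + 1 ≤ (mv w a σ) c ∧
        (mv v b τ) c + 1 ≤ (mv w a σ) c)) := fun c hc => hno ⟨c, hc⟩
  have hoff : ∀ c, c ≠ a → c ≠ b → w c = v c := by
    intro c hca hcb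
    have h := hno' c
    simp only [mv_ne _ _ _ _ hca, mv_ne _ _ _ _ hcb] at h
    omega
  by_cases hab : a = b
  · subst hab
    have h := hno' a
    simp only [mv_same] at h
    have hcases : w a = v a ∨ w a = v a + τ ∨ w a + σ = v a ∨ w a + σ = v a + τ := by
      rcases hσ with rfl | rfl <;> rcases hτ with rfl | rfl <;> omega
    have key : ∀ c, c ≠ a → w c = v c := fun c hc => hoff c hc hc
    rcases hcases with h' | h' | h' | h'
    · exact h1 (by funext c; by_cases hc : c = a; · rw [hc]; exact h'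
                   · exact key c hc)
    · exact h2 (by
        funext c
        by_cases hc : c = a
        · rw [hc]; simp only [mv_same]; exact h'
        · simp only [mv_ne _ _ _ _ hc]; exact key c hc)
    · exact h3 (by
        funext c
        by_cases hc : c = a
        · rw [hc]; simp only [mv_same]; exact h'
        · simp only [mv_ne _ _ _ _ hc]; exact key c hc)
    · exact h4 (by
        funext c
        by_cases hc : c = a
        · rw [hc]; simp only [mv_same]; exact h'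
        · simp only [mv_ne _ _ _ _ hc]; exact key c hc)
  · have hba : b ≠ a := fun h => hab h.symm
    have ha := hno' a
    have hb := hno' b
    simp only [mv_same, mv_ne _ _ _ _ hab] at ha
    simp only [mv_same, mv_ne _ _ _ _ hba] at hb
    have hca : v a = w a ∨ v a = w a + σ := by rcases hσ with rfl | rfl <;> omega
    have hcb : w b = v b ∨ w b = v b + τ := by rcases hτ with rfl | rfl <;> omega
    rcases hca with h' | h' <;> rcases hcb with h'' | h''
    · exact h1 (by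
        funext c
        by_cases hc : c = a
        · rw [hc]; exact h'.symm
        · by_cases hc2 : c = b
          · rw [hc2]; exact h''
          · exact hoff c hc hc2)
    · exact h2 (by
        funext c
        by_cases hc : c = a
        · rw [hc]; simp only [mv_ne _ _ _ _ hab]; exact h'.symm
        · by_cases hc2 : c = b
          · rw [hc2]; simp only [mv_same]; exact h''
          · simp only [mv_ne _ _ _ _ hc2]; exact hoff c hc hc2)
    · exact h3 (by
        funext c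
        by_cases hc : c = a
        · rw [hc]; simp only [mv_same]; exact h'.symm
        · by_cases hc2 : c = b
          · rw [hc2]; simp only [mv_ne _ _ _ _ hba]; exact h''
          · simp only [mv_ne _ _ _ _ hc]; exact hoff c hc hc2)
    · exact h4 (by
        funext c
        by_cases hc : c = a
        · rw [hc]; simp only [mv_same, mv_ne _ _ _ _ hab]
          exact h'.symm
        · by_cases hc2 : c = b
          · rw [hc2]; simp only [mv_same, mv_ne _ _ _ _ hba]
            exact h''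
          · simp only [mv_ne _ _ _ _ hc, mv_ne _ _ _ _ hc2]
            exact hoff c hc hc2)

/-- Points over edges without a common vertex are far apart. -/
lemma far {s : ℝ} (hs : 0 < s) {y y' : Fin (d + 1) → ℝ} (hy : InK s y) (hy' : InK s y')
    (w v : Fin (d + 1) → ℤ) (a b : Fin (d + 1)) (σ τ : ℤ) (hσ : σ = 1 ∨ σ = -1)
    (hτ : τ = 1 ∨ τ = -1) (h1 : w ≠ v) (h2 : w ≠ mv v b τ)
    (h3 : mv w a σ ≠ v) (h4 : mv w a σ ≠ mv v b τ) :
    3 / 4 * s ≤ dist (pt s w a σ y) (pt s v b τ y') := by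
  obtain ⟨c, hc⟩ := gap w v a b σ τ hσ hτ h1 h2 h3 h4
  refine le_trans ?_ (dist_le_pi_dist (pt s w a σ y) (pt s v b τ y') c)
  rw [Real.dist_eq]
  rcases hc with ⟨g1, g2, g3, g4⟩ | ⟨g1, g2, g3, g4⟩
  · have hu := pt_upper hs hy w a σ hσ c (max (w c) ((mv w a σ) c)) (le_max_left _ _)
      (le_max_right _ _)
    have hl := pt_lower hs hy' v b τ hτ c (max (w c) ((mv w a σ) c) + 1)
      (by omega) (by omega)
    push_cast at hl hu
    rw [abs_sub_comm]
    refine le_trans ?_ (le_abs_self _)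
    nlinarith
  · have hu := pt_upper hs hy' v b τ hτ c (max (v c) ((mv v b τ) c)) (le_max_left _ _)
      (le_max_right _ _)
    have hl := pt_lower hs hy w a σ hσ c (max (v c) ((mv v b τ) c) + 1)
      (by omega) (by omega)
    push_cast at hl hu
    refine le_trans ?_ (le_abs_self _)
    nlinarith

lemma near_end {s : ℝ} {y : Fin (d + 1) → ℝ} (hy : InK s y) (w : Fin (d + 1) → ℤ)
    (a : Fin (d + 1)) (σ : ℤ) (hσ : σ = 1 ∨ σ = -1) (c : Fin (d + 1)) :
    |pt s w a σ y c - s * ((mv w a σ) c : ℤ)| ≤ s - y 0 ∧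
      (c ≠ a → 4 * |pt s w a σ y c - s * ((mv w a σ) c : ℤ)| ≤ s - y 0) := by
  by_cases hc : c = a
  · subst hc
    refine ⟨?_, fun h => absurd rfl h⟩
    simp only [pt, rot_at, mv_same]
    have h0 : s * (w c : ℝ) + (σ : ℝ) * y 0 - s * ((w c + σ : ℤ) : ℝ) = (σ : ℝ) * (y 0 - s) := by
      push_cast; ring
    rw [h0, abs_mul]
    have hs : |(σ : ℝ)| = 1 := by rcases hσ with rfl | rfl <;> simp
    rw [hs, one_mul, abs_sub_comm, abs_of_nonneg (by linarith [hy.2.1])]
  · have h := rot_small hy a σ c hc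
    simp only [pt, mv_ne _ _ _ _ hc, add_sub_cancel_left]
    refine ⟨?_, fun _ => h.2⟩
    have := abs_nonneg (rot a (σ : ℝ) y c)
    linarith [h.2]

lemma near_start {s : ℝ} {y : Fin (d + 1) → ℝ} (hy : InK s y) (w : Fin (d + 1) → ℤ)
    (a : Fin (d + 1)) (σ : ℤ) (hσ : σ = 1 ∨ σ = -1) (c : Fin (d + 1)) :
    |pt s w a σ y c - s * (w c : ℤ)| ≤ y 0 ∧
      (c ≠ a → 4 * |pt s w a σ y c - s * (w c : ℤ)| ≤ y 0) := by
  by_cases hc : c = a
  · subst hc
    refine ⟨?_, fun h => absurd rfl h⟩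
    simp only [pt, rot_at, add_sub_cancel_left]
    rw [abs_mul]
    have hs : |(σ : ℝ)| = 1 := by rcases hσ with rfl | rfl <;> simp
    rw [hs, one_mul, abs_of_nonneg hy.1]
  · have h := rot_small hy a σ c hc
    simp only [pt, add_sub_cancel_left]
    refine ⟨?_, fun _ => h.1⟩
    have := abs_nonneg (rot a (σ : ℝ) y c)
    linarith [h.1]

/-- Consecutive edges: upper bound. -/
lemma junction_up {s : ℝ} {y y' : Fin (d + 1) → ℝ} (hy : InK s y) (hy' : InK s y')
    (w : Fin (d + 1) → ℤ) (a b : Fin (d + 1)) (σ τ : ℤ) (hσ : σ = 1 ∨ σ = -1)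
    (hτ : τ = 1 ∨ τ = -1) :
    dist (pt s w a σ y) (pt s (mv w a σ) b τ y') ≤ (s - y 0) + y' 0 := by
  rw [dist_pi_le_iff (by linarith [hy.2.1, hy'.1])]
  intro c
  rw [Real.dist_eq]
  have h1 := (near_end hy w a σ hσ c).1
  have h2 := (near_start hy' (mv w a σ) b τ hτ c).1
  calc |pt s w a σ y c - pt s (mv w a σ) b τ y' c|
      = |(pt s w a σ y c - s * ((mv w a σ) c : ℤ)) -
          (pt s (mv w a σ) b τ y' c - s * ((mv w a σ) c : ℤ))| := by ring_nf
    _ ≤ _ := abs_sub _ _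
    _ ≤ _ := add_le_add h1 h2

/-- Consecutive edges: lower bound. -/
lemma junction_low {s : ℝ} {y y' : Fin (d + 1) → ℝ} (hy : InK s y) (hy' : InK s y')
    (w : Fin (d + 1) → ℤ) (a b : Fin (d + 1)) (σ τ : ℤ) (hσ : σ = 1 ∨ σ = -1)
    (hτ : τ = 1 ∨ τ = -1) (hback : mv (mv w a σ) b τ ≠ w) :
    3 / 4 * max (s - y 0) (y' 0) ≤ dist (pt s w a σ y) (pt s (mv w a σ) b τ y') := by
  have ht : 0 ≤ s - y 0 := by linarith [hy.2.1]
  have ht' : 0 ≤ y' 0 := hy'.1
  by_cases hab : a = b
  · subst hab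
    have hst : σ = τ := by
      by_contra hne
      apply hback
      have : τ = -σ := by rcases hσ with rfl | rfl <;> rcases hτ with rfl | rfl <;> simp_all
      subst this
      funext c
      by_cases hc : c = a
      · rw [hc, mv_same, mv_same]; ring
      · rw [mv_ne _ _ _ _ hc, mv_ne _ _ _ _ hc]
    subst hst
    refine le_trans ?_ (dist_le_pi_dist _ _ a)
    rw [Real.dist_eq]
    simp only [pt, rot_at, mv_same]
    have h0 : s * (w a : ℝ) + (σ : ℝ) * y 0 - (s * ((w a + σ : ℤ) : ℝ) + (σ : ℝ) * y' 0) =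
        (σ : ℝ) * (-((s - y 0) + y' 0)) := by push_cast; ring
    have hs : |(σ : ℝ)| = 1 := by rcases hσ with rfl | rfl <;> simp
    rw [h0, abs_mul, hs, one_mul, abs_neg, abs_of_nonneg (by linarith)]
    rcases le_total (s - y 0) (y' 0) with h | h
    · rw [max_eq_right h]; linarith
    · rw [max_eq_left h]; linarith
  · have hba : b ≠ a := fun h => hab h.symm
    rcases le_total (s - y 0) (y' 0) with h | h
    · rw [max_eq_right h]
      refine le_trans ?_ (dist_le_pi_dist _ _ b)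
      rw [Real.dist_eq]
      have h1 := (near_end hy w a σ hσ b).2 hba
      have h2 : pt s (mv w a σ) b τ y' b - s * ((mv w a σ) b : ℤ) = τ * y' 0 := by
        simp [pt, rot_at]
      have hs : |(τ : ℝ)| = 1 := by rcases hτ with rfl | rfl <;> simp
      have h3 : |pt s (mv w a σ) b τ y' b - s * ((mv w a σ) b : ℤ)| = y' 0 := by
        rw [h2, abs_mul, hs, one_mul, abs_of_nonneg ht']
      have h4 := abs_sub_abs_le_abs_sub
        (pt s (mv w a σ) b τ y' b - s * ((mv w a σ) b : ℤ))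
        (pt s w a σ y b - s * ((mv w a σ) b : ℤ))
      rw [h3, sub_sub_sub_cancel_right] at h4
      rw [abs_sub_comm]
      linarith
    · rw [max_eq_left h]
      refine le_trans ?_ (dist_le_pi_dist _ _ a)
      rw [Real.dist_eq]
      have h1 := (near_start hy' (mv w a σ) b τ hτ a).2 hab
      have h2 : pt s w a σ y a - s * ((mv w a σ) a : ℤ) = σ * (y 0 - s) := by
        simp only [pt, rot_at, mv_same]
        push_cast; ring
      have hs : |(σ : ℝ)| = 1 := by rcases hσ with rfl | rfl <;> simp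
      have h3 : |pt s w a σ y a - s * ((mv w a σ) a : ℤ)| = s - y 0 := by
        rw [h2, abs_mul, hs, one_mul, abs_sub_comm, abs_of_nonneg ht]
      have h4 := abs_sub_abs_le_abs_sub
        (pt s w a σ y a - s * ((mv w a σ) a : ℤ))
        (pt s (mv w a σ) b τ y' a - s * ((mv w a σ) a : ℤ))
      rw [h3, sub_sub_sub_cancel_right] at h4
      linarith

end Pool.Agent.R672.DS
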