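import Pool.Agent.R672.DS.Defs

/-!
Module HOLE (MP_bf2d93_gt).
-/

set_option autoImplicit false

namespace Pool.Agent.R672.DS

/-- `f` at `max t 1`. -/
def FM (f : ℕ → ℝ) (t : ℕ) : ℝ := f (max t 1)

lemma FM_mono {f : ℕ → ℝ} (hf : IsRate f) {s t : ℕ} (h : s ≤ t) : FM f s ≤ FM f t :=
  hf.2.1 _ _ (le_max_right _ _) (max_le_max h le_rfl)

lemma FM_pos {f : ℕ → ℝ} (hf : IsRate f) (t : ℕ) : 0 < FM f t := hf.1 _ (le_max_right _ _)

lemma upper {k : ℕ} {f : ℕ → ℝ} (hf : IsRate f) {p : ℕ → Fin k → ℝ} {A B : ℝ} {N₀ : ℕ}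
    (hD : Dist k f p A B N₀) : ∃ B₁ : ℝ, 0 < B₁ ∧ ∀ m n : ℕ,
      dist (p m) (p n) ≤ B₁ * FM f ((n : ℤ) - m).natAbs := by
  obtain ⟨hA, hB, hN, h⟩ := hD
  have hf1 := hf.1 1 le_rfl
  have hf2 := hf.1 (2 * N₀) (by omega)
  refine ⟨B + 2 * B * f (2 * N₀) / f 1, by positivity, ?_⟩
  have key : ∀ m d : ℕ, dist (p m) (p (m + d)) ≤
      (B + 2 * B * f (2 * N₀) / f 1) * FM f d := by
    intro m d
    have hpos := FM_pos hf d
    by_cases hd : N₀ ≤ d
    · have h1 := (h m (m + d) (by omega)).2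
      rw [Nat.add_sub_cancel_left] at h1
      have h2 : FM f d = f d := by rw [FM, max_eq_left (by omega)]
      rw [h2] at hpos ⊢
      refine h1.trans ?_
      have : 0 ≤ 2 * B * f (2 * N₀) / f 1 * f d := by positivity
      nlinarith
    · push Not at hd
      have h1 := (h m (m + d + N₀) (by omega)).2
      have h2 := (h (m + d) (m + d + N₀) (by omega)).2
      rw [show m + d + N₀ - m = d + N₀ by omega] at h1
      rw [show m + d + N₀ - (m + d) = N₀ by omega] at h2
      have h3 : f (d + N₀) ≤ f (2 * N₀) := hf.2.1 _ _ (by omega) (by omega)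
      have h4 : f N₀ ≤ f (2 * N₀) := hf.2.1 _ _ (by omega) (by omega)
      have h5 := dist_triangle_right (p m) (p (m + d)) (p (m + d + N₀))
      have h6 : dist (p m) (p (m + d)) ≤ 2 * B * f (2 * N₀) := by
        have := mul_le_mul_of_nonneg_left h3 hB.le
        have := mul_le_mul_of_nonneg_left h4 hB.le
        linarith
      have h7 : f 1 ≤ FM f d := hf.2.1 _ _ le_rfl (le_max_right _ _)
      calc dist (p m) (p (m + d)) ≤ 2 * B * f (2 * N₀) := h6
        _ = 2 * B * f (2 * N₀) / f 1 * f 1 := by field_simp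
        _ ≤ 2 * B * f (2 * N₀) / f 1 * FM f d := mul_le_mul_of_nonneg_left h7 (by positivity)
        _ ≤ _ := by
          have : 0 ≤ B * FM f d := by positivity
          nlinarith
  intro m n
  rcases le_total m n with hmn | hmn
  · obtain ⟨d, rfl⟩ := Nat.exists_eq_add_of_le hmn
    have e : (((m + d : ℕ) : ℤ) - m).natAbs = d := by push_cast; omega
    rw [e]; exact key m d
  · obtain ⟨d, rfl⟩ := Nat.exists_eq_add_of_le hmn
    have e : ((n : ℤ) - ((n + d : ℕ) : ℤ)).natAbs = d := by push_cast; omega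
    rw [e, dist_comm]; exact key n d

lemma lower {k : ℕ} {f : ℕ → ℝ} {p : ℕ → Fin k → ℝ} {A B : ℝ} {N₀ : ℕ}
    (hD : Dist k f p A B N₀) (m n : ℕ) (h : N₀ ≤ ((n : ℤ) - m).natAbs) :
    A * f ((n : ℤ) - m).natAbs ≤ dist (p m) (p n) := by
  obtain ⟨hA, hB, hN, hd⟩ := hD
  rcases le_total m n with hmn | hmn
  · obtain ⟨d, rfl⟩ := Nat.exists_eq_add_of_le hmn
    have e : (((m + d : ℕ) : ℤ) - m).natAbs = d := by push_cast; omega
    rw [e] at h ⊢
    have := (hd m (m + d) (by omega)).1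
    rwa [Nat.add_sub_cancel_left] at this
  · obtain ⟨d, rfl⟩ := Nat.exists_eq_add_of_le hmn
    have e : ((n : ℤ) - ((n + d : ℕ) : ℤ)).natAbs = d := by push_cast; omega
    rw [e] at h ⊢
    have := (hd n (n + d) (by omega)).1
    rw [Nat.add_sub_cancel_left] at this
    rwa [dist_comm]

/-- discrete sign change -/
lemma sign_change {g : ℕ → ℤ} {K : ℕ} (hK : 1 ≤ K) (h : g K = - g 0) :
    ∃ i < K, g i * g (i + 1) ≤ 0 := by
  by_contra hcon
  push Not at hcon
  have key : ∀ i, 1 ≤ i → i ≤ K → 0 < g 0 * g i := by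
    intro i hi
    induction i, hi using Nat.le_induction with
    | base => intro _; exact hcon 0 (by omega)
    | succ i hi ih =>
      intro hiK
      have h1 := ih (by omega)
      have h2 := hcon i (by omega)
      have h3 := mul_pos h1 h2
      have h4 : g 0 * g i * (g i * g (i + 1)) = (g i) ^ 2 * (g 0 * g (i + 1)) := by ring
      rw [h4] at h3
      exact pos_of_mul_pos_right h3 (by positivity)
  have h1 := key K hK le_rfl
  rw [h] at h1
  nlinarith [sq_nonneg (g 0)]

lemma natAbs_of_sign {a b : ℤ} (h : a * b ≤ 0) : a.natAbs ≤ (a - b).natAbs := by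
  rcases le_total 0 a with ha | ha
  · rcases le_total 0 b with hb | hb
    · have : a * b = 0 := le_antisymm h (mul_nonneg ha hb)
      rcases mul_eq_zero.1 this with h1 | h1
      · subst h1; simp
      · subst h1; simp
    · omega
  · rcases le_total 0 b with hb | hb
    · omega
    · have : a * b = 0 := le_antisymm h (mul_nonneg_of_nonpos_of_nonpos ha hb)
      rcases mul_eq_zero.1 this with h1 | h1
      · subst h1; simp
      · subst h1; simp

/-- The circle in the first two coordinates. -/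
noncomputable def circ (k : ℕ) (y : Fin k → ℝ) (R θ : ℝ) : Fin k → ℝ := fun c =>
  y c + R * (if c.val = 0 then Real.cos θ else if c.val = 1 then Real.sin θ else 0)

lemma circ_dist {k : ℕ} {y : Fin k → ℝ} {R θ φ ε : ℝ} (hR : 0 ≤ R) (hε : 0 ≤ ε)
    (h1 : |Real.cos θ - Real.cos φ| ≤ ε) (h2 : |Real.sin θ - Real.sin φ| ≤ ε) :
    dist (circ k y R θ) (circ k y R φ) ≤ R * ε := by
  rw [dist_pi_le_iff (by positivity)]
  intro c
  rw [Real.dist_eq]
  unfold circ
  have e : y c + R * (if c.val = 0 then Real.cos θ else if c.val = 1 then Real.sin θ else 0) -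
      (y c + R * (if c.val = 0 then Real.cos φ else if c.val = 1 then Real.sin φ else 0)) =
      R * ((if c.val = 0 then Real.cos θ else if c.val = 1 then Real.sin θ else 0) -
        (if c.val = 0 then Real.cos φ else if c.val = 1 then Real.sin φ else 0)) := by ring
  rw [e, abs_mul, abs_of_nonneg hR]
  refine mul_le_mul_of_nonneg_left ?_ hR
  split_ifs
  · exact h1
  · exact h2
  · simpa using hε

lemma circ_center {k : ℕ} {y : Fin k → ℝ} {R θ : ℝ} (hR : 0 ≤ R) :
    dist (circ k y R θ) y ≤ R := by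
  rw [dist_pi_le_iff hR]
  intro c
  rw [Real.dist_eq]
  unfold circ
  rw [add_sub_cancel_left, abs_mul, abs_of_nonneg hR]
  have : |(if c.val = 0 then Real.cos θ else if c.val = 1 then Real.sin θ else 0)| ≤ 1 := by
    split_ifs
    · exact Real.abs_cos_le_one θ
    · exact Real.abs_sin_le_one θ
    · simp
  nlinarith

lemma circ_anti {k : ℕ} (hk : 2 ≤ k) {y : Fin k → ℝ} {R θ : ℝ} (hR : 0 ≤ R) :
    R ≤ dist (circ k y R θ) (circ k y R (θ + Real.pi)) := by
  have h0 := dist_le_pi_dist (circ k y R θ) (circ k y R (θ + Real.pi)) ⟨0, by omega⟩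
  have h1 := dist_le_pi_dist (circ k y R θ) (circ k y R (θ + Real.pi)) ⟨1, by omega⟩
  rw [Real.dist_eq] at h0 h1
  set Dd := dist (circ k y R θ) (circ k y R (θ + Real.pi)) with hDd
  clear_value Dd
  clear hDd
  unfold circ at h0 h1
  simp only [if_true, one_ne_zero, if_false, Real.cos_add_pi, Real.sin_add_pi] at h0 h1
  have e0 : y ⟨0, by omega⟩ + R * Real.cos θ - (y ⟨0, by omega⟩ + R * -Real.cos θ) =
    2 * R * Real.cos θ := by ring
  have e1 : y ⟨1, by omega⟩ + R * Real.sin θ - (y ⟨1, by omega⟩ + R * -Real.sin θ) =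
    2 * R * Real.sin θ := by ring
  rw [e0, abs_mul, abs_of_nonneg (by positivity)] at h0
  rw [e1, abs_mul, abs_of_nonneg (by positivity)] at h1
  have hcs : 1 / 2 ≤ |Real.cos θ| ∨ 1 / 2 ≤ |Real.sin θ| := by
    by_contra hcon
    push Not at hcon
    have h2 := Real.sin_sq_add_cos_sq θ
    have h3 := sq_abs (Real.cos θ)
    have h4 := sq_abs (Real.sin θ)
    have h5 := abs_nonneg (Real.cos θ)
    have h6 := abs_nonneg (Real.sin θ)
    nlinarith
  rcases hcs with h | h
  · refine le_trans ?_ h0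
    nlinarith
  · refine le_trans ?_ h1
    nlinarith

theorem stmHole : StmHole := by
  intro k hk f hf p A B N₀ hD
  obtain ⟨B₁, hB₁, hup⟩ := upper hf hD
  obtain ⟨c, C₂, hc, hcC, N₂, hN₂⟩ := hf.2.2.2 2 (by norm_num)
  have hC₂ : 0 < C₂ := lt_of_lt_of_le hc hcC
  have hA := hD.1
  have hN₀ := hD.2.2.1
  set T := max (max N₀ N₂) 1 with hT
  have hT0 : N₀ ≤ T := le_trans (le_max_left _ _) (le_max_left _ _)
  have hT2 : N₂ ≤ T := le_trans (le_max_right _ _) (le_max_left _ _)
  have hT1 : 1 ≤ T := le_max_right _ _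
  have hfT := hf.1 (2 * T) (by omega)
  set η := min (1 / 9) (A / (7 * B₁ * C₂)) with hη
  have hη0 : 0 < η := lt_min (by norm_num) (by positivity)
  have hη9 : η ≤ 1 / 9 := min_le_left _ _
  have hηA : 7 * B₁ * C₂ * η ≤ A := by
    have h1 : η ≤ A / (7 * B₁ * C₂) := min_le_right _ _
    rw [le_div_iff₀ (by positivity)] at h1
    linarith
  refine ⟨η, 2 * B₁ * f (2 * T) + 1, hη0, by linarith, by positivity, ?_⟩
  intro y R hR
  have hR0 : 0 < R := lt_of_lt_of_le (by positivity) hR
  by_contra hcon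
  push Not at hcon
  choose! N hN using hcon
  obtain ⟨K, hK⟩ := exists_nat_gt (Real.pi / η)
  have hK0 : (0 : ℝ) < K := lt_of_le_of_lt (by positivity) hK
  have hK1 : 1 ≤ K := by
    have : 0 < K := by exact_mod_cast hK0
    omega
  have hKη : Real.pi / K ≤ η := by
    rw [div_lt_iff₀ hη0] at hK
    rw [div_le_iff₀ hK0]
    linarith
  set z : ℕ → Fin k → ℝ := fun i => circ k y R (Real.pi * i / K) with hz
  have hzy : ∀ i, dist (z i) y ≤ R := fun i => circ_center hR0.le
  have hz1 : ∀ i, dist (z i) (z (i + 1)) ≤ R * η := by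
    intro i
    have e : Real.pi * ((i : ℕ) : ℝ) / K - Real.pi * ((i + 1 : ℕ) : ℝ) / K = -(Real.pi / K) := by
      push_cast; field_simp; ring
    refine circ_dist hR0.le hη0.le ?_ ?_
    · refine (Real.abs_cos_sub_cos_le _ _).trans ?_
      rw [e, abs_neg, abs_of_nonneg (by positivity)]; exact hKη
    · refine (Real.abs_sin_sub_sin_le _ _).trans ?_
      rw [e, abs_neg, abs_of_nonneg (by positivity)]; exact hKη
  have hzK : ∀ i, R ≤ dist (z i) (z (i + K)) := by
    intro i
    have e : Real.pi * ((i + K : ℕ) : ℝ) / K = Real.pi * i / K + Real.pi := by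
      push_cast; field_simp
    simp only [hz]
    rw [e]
    exact circ_anti hk hR0.le
  have hz2 : z (0 + K + K) = z 0 := by
    simp only [hz]
    have e : Real.pi * ((0 + K + K : ℕ) : ℝ) / K = Real.pi * ((0 : ℕ) : ℝ) / K + 2 * Real.pi := by
      push_cast; field_simp; ring
    rw [e]
    unfold circ
    rw [Real.cos_add_two_pi, Real.sin_add_two_pi]
  set n : ℕ → ℕ := fun i => N (z i) with hn
  have hnz : ∀ i, dist (p (n i)) (z i) < η * R := fun i => hN (z i) (hzy i)
  clear_value z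
  have hstep : ∀ i, dist (p (n i)) (p (n (i + 1))) < 3 * (η * R) := by
    intro i
    have h1 := dist_triangle4 (p (n i)) (z i) (z (i + 1)) (p (n (i + 1)))
    have h2 := hnz i
    have h3 := hnz (i + 1)
    rw [dist_comm] at h3
    have h4 := hz1 i
    nlinarith
  set g : ℕ → ℤ := fun i => (n i : ℤ) - n (i + K) with hg
  have hgK : g K = - g 0 := by
    simp only [hg]
    have : n (K + K) = n 0 := by
      simp only [hn]
      have h1 := hz2
      rw [zero_add] at h1
      rw [h1]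
    rw [this, zero_add]
    ring
  obtain ⟨i, hi, hgi⟩ := sign_change hK1 hgK
  have hg1 := natAbs_of_sign hgi
  -- the larger of the two steps
  obtain ⟨j, hj⟩ : ∃ j, (g i).natAbs ≤ 2 * ((n (j + 1) : ℤ) - n j).natAbs := by
    have h1 : (g i - g (i + 1)).natAbs ≤ ((n (i + 1) : ℤ) - n i).natAbs +
        ((n (i + K + 1) : ℤ) - n (i + K)).natAbs := by
      simp only [hg]
      rw [show i + 1 + K = i + K + 1 by omega]
      omega
    rcases le_total ((n (i + 1) : ℤ) - n i).natAbs ((n (i + K + 1) : ℤ) - n (i + K)).natAbs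
      with h | h
    · exact ⟨i + K, by omega⟩
    · exact ⟨i, by omega⟩
  set τ := ((n (j + 1) : ℤ) - n j).natAbs with hτ
  have hmain : R - 2 * (η * R) ≤ B₁ * FM f (2 * τ) := by
    have h1 := hzK i
    have h2 := dist_triangle4 (z i) (p (n i)) (p (n (i + K))) (z (i + K))
    have h3 := hnz i
    have h4 := hnz (i + K)
    rw [dist_comm] at h3
    have h5 := hup (n (i + K)) (n i)
    rw [dist_comm] at h5
    have h6 : FM f (((n i : ℕ) : ℤ) - (n (i + K) : ℕ)).natAbs ≤ FM f (2 * τ) := FM_mono hf hj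
    have h7 := mul_le_mul_of_nonneg_left h6 hB₁.le
    linarith
  have hηR : η * R ≤ 1 / 9 * R := mul_le_mul_of_nonneg_right hη9 hR0.le
  rcases le_or_gt τ T with hτT | hτT
  · have h1 : FM f (2 * τ) ≤ f (2 * T) := by
      rw [FM]
      exact hf.2.1 _ _ (le_max_right _ _) (by omega)
    have h2 := mul_le_mul_of_nonneg_left h1 hB₁.le
    nlinarith
  · have hτ1 : 1 ≤ τ := by omega
    have h1 : FM f (2 * τ) = f (2 * τ) := by rw [FM, max_eq_left (by omega)]
    have h2 := (hN₂ τ (by omega) hτ1).2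
    have h3 := lower hD (n j) (n (j + 1)) (by rw [← hτ]; omega)
    rw [← hτ] at h3
    have h4 := hstep j
    rw [h1] at hmain
    have h5 : R - 2 * (η * R) ≤ B₁ * (C₂ * f τ) :=
      hmain.trans (mul_le_mul_of_nonneg_left h2 hB₁.le)
    have h6 : A * f τ ≤ 3 * (η * R) := h3.trans h4.le
    have hfτ := hf.1 τ hτ1
    -- 7 B₁ C₂ η (A f τ) ≤ ...
    have h7 : 7 * (B₁ * (C₂ * f τ)) * η ≤ 3 * (η * R) := by
      calc 7 * (B₁ * (C₂ * f τ)) * η = (7 * B₁ * C₂ * η) * f τ := by ring
        _ ≤ A * f τ := mul_le_mul_of_nonneg_right hηA hfτ.le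
        _ ≤ 3 * (η * R) := h6
    have h8 : 7 * (B₁ * (C₂ * f τ)) ≤ 3 * R := by
      have : 7 * (B₁ * (C₂ * f τ)) * η ≤ 3 * R * η := by linarith
      exact le_of_mul_le_mul_right this hη0
    linarith

end Pool.Agent.R672.DS
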