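import Pool.Agent.R672.DS.Defs

/-!
# Module NEC of MP_bf2d93_gt: necessity of the criterion, from HOLE and COUNT
-/

namespace Pool.Agent.R672.DS

/-- One constant bounding all distances. -/
theorem nec_bound (k : ℕ) (f : ℕ → ℝ) (hf : IsRate f) (p : ℕ → Fin k → ℝ) (A B : ℝ) (N₀ : ℕ)
    (hD : Dist k f p A B N₀) :
    ∃ B1 : ℝ, A ≤ B1 ∧ 0 < B1 ∧ ∀ m n t : ℕ, m ≤ n → 1 ≤ t → n - m ≤ t →
      dist (p m) (p n) ≤ B1 * f t := by
  obtain ⟨hpos, hmono, -, -⟩ := hf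
  obtain ⟨hA, hB, hN, hd⟩ := hD
  have h1 : 0 < f 1 := hpos 1 le_rfl
  have h2N : 0 < f (2 * N₀) := hpos _ (by omega)
  have hx : 0 < 2 * B * f (2 * N₀) / f 1 := by positivity
  refine ⟨A + B + 2 * B * f (2 * N₀) / f 1, by linarith, by linarith, ?_⟩
  intro m n t hmn ht hnt
  have hft : 0 < f t := hpos t ht
  by_cases hc : m + N₀ ≤ n
  · have h3 := (hd m n hc).2
    have h4 : f (n - m) ≤ f t := hmono _ _ (by omega) hnt
    calc dist (p m) (p n) ≤ B * f (n - m) := h3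
      _ ≤ B * f t := mul_le_mul_of_nonneg_left h4 hB.le
      _ ≤ _ := by
        apply mul_le_mul_of_nonneg_right _ hft.le
        linarith
  · push Not at hc
    have h3 := (hd m (n + N₀) (by omega)).2
    have h4 := (hd n (n + N₀) (by omega)).2
    have h5 : f (n + N₀ - m) ≤ f (2 * N₀) := hmono _ _ (by omega) (by omega)
    have h6 : f (n + N₀ - n) ≤ f (2 * N₀) := hmono _ _ (by omega) (by omega)
    have h7 : f 1 ≤ f t := hmono _ _ le_rfl ht
    have h8 : dist (p m) (p n) ≤ 2 * B * f (2 * N₀) := by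
      have h9 : dist (p m) (p n) ≤ dist (p m) (p (n + N₀)) + dist (p n) (p (n + N₀)) :=
        dist_triangle_right _ _ _
      have h10 := mul_le_mul_of_nonneg_left h5 hB.le
      have h11 := mul_le_mul_of_nonneg_left h6 hB.le
      linarith
    calc dist (p m) (p n) ≤ 2 * B * f (2 * N₀) := h8
      _ = 2 * B * f (2 * N₀) / f 1 * f 1 := by field_simp
      _ ≤ 2 * B * f (2 * N₀) / f 1 * f t := mul_le_mul_of_nonneg_left h7 hx.le
      _ ≤ _ := by
        apply mul_le_mul_of_nonneg_right _ hft.le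
        linarith

theorem nec_chain (k : ℕ) (f : ℕ → ℝ) (p : ℕ → Fin k → ℝ) (B1 : ℝ) (M : ℕ) (hM : 1 ≤ M)
    (h : ∀ m n t : ℕ, m ≤ n → 1 ≤ t → n - m ≤ t → dist (p m) (p n) ≤ B1 * f t) (q : ℕ) :
    dist (p 0) (p (q * M)) ≤ q * (B1 * f M) := by
  induction q with
  | zero => simp
  | succ q ih =>
    have h1 := h (q * M) ((q + 1) * M) M (by nlinarith) hM (by rw [add_mul]; omega)
    have h2 := dist_triangle (p 0) (p (q * M)) (p ((q + 1) * M))
    push_cast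
    linarith

theorem nec_a (k : ℕ) (f : ℕ → ℝ) (hf : IsRate f) (p : ℕ → Fin k → ℝ) (A B : ℝ) (N₀ : ℕ)
    (hD : Dist k f p A B N₀) (B1 : ℝ) (hB1 : 0 < B1)
    (h : ∀ m n t : ℕ, m ≤ n → 1 ≤ t → n - m ≤ t → dist (p m) (p n) ≤ B1 * f t)
    (M N : ℕ) (hM : N₀ ≤ M) (hMN : M ≤ N) :
    f N / N ≤ 2 * B1 / A * (f M / M) := by
  obtain ⟨hpos, hmono, -, -⟩ := hf
  obtain ⟨hA, hB, hN, hd⟩ := hD
  have hM1 : 1 ≤ M := by omega
  have hfM : 0 < f M := hpos M hM1
  have hMr : (0 : ℝ) < M := by exact_mod_cast hM1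
  have hNr : (0 : ℝ) < N := by exact_mod_cast (by omega : 0 < N)
  have h1 := nec_chain k f p B1 M hM1 h (N / M)
  have h2 := h (N / M * M) N M (Nat.div_mul_le_self N M) hM1
    (by have := Nat.div_add_mod' N M; have := Nat.mod_lt N (by omega : 0 < M); omega)
  have h3 := (hd 0 N (by omega)).1
  rw [Nat.sub_zero] at h3
  have h4 := dist_triangle (p 0) (p (N / M * M)) (p N)
  have h5 : ((N / M : ℕ) : ℝ) ≤ N / M := Nat.cast_div_le
  have h6 : (1 : ℝ) ≤ N / M := by rw [le_div_iff₀ hMr, one_mul]; exact_mod_cast hMN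
  have h7 : A * f N ≤ (2 * (N / M : ℝ)) * (B1 * f M) := by
    have h8 : (((N / M : ℕ) : ℝ) + 1) * (B1 * f M) ≤ (2 * (N / M : ℝ)) * (B1 * f M) :=
      mul_le_mul_of_nonneg_right (by linarith) (by positivity)
    linarith
  rw [div_le_iff₀ hNr]
  have h9 : 2 * B1 / A * (f M / M) * N = ((2 * (N / M : ℝ)) * (B1 * f M)) / A := by
    field_simp
  rw [h9, le_div_iff₀ hA]
  linarith

theorem nec_card (k : ℕ) (f : ℕ → ℝ) (hf : IsRate f) (p : ℕ → Fin k → ℝ) (A B : ℝ) (N₀ : ℕ)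
    (hD : Dist k f p A B N₀) (B1 : ℝ) (hAB : A ≤ B1) (hB1 : 0 < B1)
    (h : ∀ m n t : ℕ, m ≤ n → 1 ≤ t → n - m ≤ t → dist (p m) (p n) ≤ B1 * f t)
    (L : ℕ) (R₁ : ℝ) (hL : 2 ≤ L) (hR₁ : 0 < R₁)
    (hcount : ∀ (j : ℕ) (x : Fin k → ℝ) (s δ : ℝ) (G : Finset ℕ),
      0 < s → R₁ * (L : ℝ) ^ j ≤ s * L → s ≤ δ * (L : ℝ) ^ j →
      (∀ g ∈ G, ∀ c, x c ≤ p g c ∧ p g c < x c + s) →
      (∀ g ∈ G, ∀ h ∈ G, g ≠ h → δ ≤ dist (p g) (p h)) →
      G.card ≤ (L ^ k - 1) ^ j)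
    (M N : ℕ) (hM : N₀ ≤ M) (hMN : M ≤ N) (hδ : R₁ ≤ A * f M) :
    ∃ j : ℕ, (N : ℝ) / M ≤ (((L ^ k - 1 : ℕ) : ℝ)) ^ j ∧
      (L : ℝ) ^ j * f M ≤ 3 * L * B1 / A * f N := by
  obtain ⟨hpos, hmono, -, -⟩ := hf
  obtain ⟨hA, hB, hN, hd⟩ := hD
  have hM1 : 1 ≤ M := by omega
  have hfM : 0 < f M := hpos M hM1
  have hfN : 0 < f N := hpos N (by omega)
  have hfMN : f M ≤ f N := hmono _ _ hM1 hMN
  have hLr : (2 : ℝ) ≤ L := by exact_mod_cast hL
  set δ : ℝ := A * f M with hδdef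
  have hδ0 : 0 < δ := by positivity
  set S : ℝ := 3 * B1 * f N with hSdef
  have hS : δ < S := by
    have : A * f M ≤ B1 * f N := mul_le_mul hAB hfMN hfM.le hB1.le
    have : 0 < B1 * f N := by positivity
    rw [hδdef, hSdef]; linarith
  have hex : ∃ j : ℕ, S ≤ δ * (L : ℝ) ^ j := by
    obtain ⟨j, hj⟩ := pow_unbounded_of_one_lt (S / δ) (by linarith : (1 : ℝ) < L)
    refine ⟨j, ?_⟩
    rw [div_lt_iff₀ hδ0] at hj
    linarith
  classical
  obtain ⟨hj, hmin⟩ : S ≤ δ * (L : ℝ) ^ (Nat.find hex) ∧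
      ∀ i < Nat.find hex, ¬ S ≤ δ * (L : ℝ) ^ i :=
    ⟨Nat.find_spec hex, fun i hi => Nat.find_min hex hi⟩
  generalize Nat.find hex = j at hj hmin
  have hj1 : 1 ≤ j := by
    rcases Nat.eq_zero_or_pos j with h0 | h0
    · subst h0; simp at hj; linarith
    · exact h0
  obtain ⟨i, rfl⟩ : ∃ i, j = i + 1 := ⟨j - 1, by omega⟩
  have hi : δ * (L : ℝ) ^ i < S := lt_of_not_ge (hmin i (by omega))
  have hLi : (0 : ℝ) < (L : ℝ) ^ i := by positivity
  refine ⟨i + 1, ?_, ?_⟩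
  · have hc := hcount (i + 1) (fun c => p 0 c - S / 2) S δ
      ((Finset.range (N / M + 1)).image (fun i => i * M)) (by linarith) ?_ hj ?_ ?_
    · rw [Finset.card_image_of_injective _ (fun a b hab => Nat.eq_of_mul_eq_mul_right (by omega : 0 < M) hab),
        Finset.card_range] at hc
      have h1 : (N : ℝ) / M ≤ ((N / M : ℕ) : ℝ) + 1 := by
        have hMr : (0 : ℝ) < M := by exact_mod_cast hM1
        rw [div_le_iff₀ hMr]
        have h2 : N ≤ (N / M + 1) * M := by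
          have := Nat.div_add_mod' N M
          have := Nat.mod_lt N (by omega : 0 < M)
          rw [add_mul]; omega
        exact_mod_cast h2
      calc (N : ℝ) / M ≤ ((N / M : ℕ) : ℝ) + 1 := h1
        _ = ((N / M + 1 : ℕ) : ℝ) := by push_cast; ring
        _ ≤ (((L ^ k - 1) ^ (i + 1) : ℕ) : ℝ) := by exact_mod_cast hc
        _ = _ := by push_cast; ring
    · have h2 : R₁ * (L : ℝ) ^ i ≤ S :=
        le_trans (mul_le_mul_of_nonneg_right hδ hLi.le) hi.le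
      calc R₁ * (L : ℝ) ^ (i + 1) = (R₁ * (L : ℝ) ^ i) * L := by ring
        _ ≤ S * L := mul_le_mul_of_nonneg_right h2 (by linarith)
    · intro g hg c
      rw [Finset.mem_image] at hg
      obtain ⟨a, ha, rfl⟩ := hg
      rw [Finset.mem_range] at ha
      have h3 : a * M ≤ N := le_trans (Nat.mul_le_mul_right M (by omega)) (Nat.div_mul_le_self N M)
      have h4 := h 0 (a * M) N (by omega) (by omega) (by omega)
      have h5 : dist (p 0 c) (p (a * M) c) ≤ B1 * f N := le_trans (dist_le_pi_dist _ _ c) h4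
      rw [Real.dist_eq, abs_le] at h5
      have : 0 < B1 * f N := by positivity
      constructor
      · show p 0 c - S / 2 ≤ _
        rw [hSdef]; linarith
      · show _ < p 0 c - S / 2 + S
        rw [hSdef]; linarith
    · intro g hg g' hg' hne
      rw [Finset.mem_image] at hg hg'
      obtain ⟨a, ha, rfl⟩ := hg
      obtain ⟨b, hb, rfl⟩ := hg'
      have key : ∀ a b : ℕ, a < b → δ ≤ dist (p (a * M)) (p (b * M)) := by
        intro a b hab
        obtain ⟨d, rfl⟩ : ∃ d, b = a + (d + 1) := ⟨b - a - 1, by omega⟩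
        have h6 : (a + (d + 1)) * M = a * M + (d * M + M) := by ring
        have h7 := (hd (a * M) ((a + (d + 1)) * M) (by rw [h6]; omega)).1
        have h8 : f M ≤ f ((a + (d + 1)) * M - a * M) := hmono _ _ hM1 (by rw [h6]; omega)
        exact le_trans (mul_le_mul_of_nonneg_left h8 hA.le) h7
      have hab : a ≠ b := fun h => hne (by rw [h])
      rcases lt_or_gt_of_ne hab with hlt | hlt
      · exact key a b hlt
      · rw [dist_comm]; exact key b a hlt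
  · have h9 : A * ((L : ℝ) ^ (i + 1) * f M) ≤ 3 * L * B1 * f N := by
      calc A * ((L : ℝ) ^ (i + 1) * f M) = (δ * (L : ℝ) ^ i) * L := by rw [hδdef]; ring
        _ ≤ S * L := mul_le_mul_of_nonneg_right hi.le (by linarith)
        _ = _ := by rw [hSdef]; ring
    have h10 : 3 * L * B1 / A * f N = (3 * L * B1 * f N) / A := by ring
    rw [h10, le_div_iff₀ hA]
    linarith

/-- Module NEC. -/
theorem stmNec : StmNec := by
  intro hhole hcnt k hk f hf p A B N₀ hD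
  obtain ⟨B1, hAB, hB1, hb⟩ := nec_bound k f hf p A B N₀ hD
  obtain ⟨η, R₀, hH⟩ := hhole k hk f hf p A B N₀ hD
  obtain ⟨L, R₁, hL, hR₁, hcount⟩ := hcnt k (by omega) p η R₀ hH
  obtain ⟨n1, hn1, hn1'⟩ := hf.2.2.1 (R₁ / A)
  have hA : 0 < A := hD.1
  have hN0 : 1 ≤ N₀ := hD.2.2.1
  have hLr : (2 : ℝ) ≤ L := by exact_mod_cast hL
  have hL1 : (1 : ℝ) < L := by linarith
  have hL0 : (0 : ℝ) < L := by linarith
  have hlogL : 0 < Real.log L := Real.log_pos hL1
  -- the number `L^k - 1`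
  have hLk : 4 ≤ L ^ k := by
    calc 4 = 2 ^ 2 := by norm_num
      _ ≤ L ^ 2 := Nat.pow_le_pow_left hL 2
      _ ≤ L ^ k := Nat.pow_le_pow_right (by omega) hk
  set Q : ℕ := L ^ k - 1 with hQ
  have hQ1 : (1 : ℝ) < Q := by
    have : 1 < Q := by omega
    exact_mod_cast this
  have hQ0 : (0 : ℝ) < Q := by linarith
  have hQL : (Q : ℝ) < (L : ℝ) ^ k := by
    have : Q < L ^ k := by omega
    exact_mod_cast this
  set κ : ℝ := Real.log Q / Real.log L with hκ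
  have hκ0 : 0 < κ := div_pos (Real.log_pos hQ1) hlogL
  have hκk : κ < k := by
    rw [hκ, div_lt_iff₀ hlogL, ← Real.log_pow]
    exact Real.log_lt_log hQ0 hQL
  have hLκ : (L : ℝ) ^ κ = Q := by
    rw [hκ, Real.rpow_def_of_pos hL0, mul_div_cancel₀ _ hlogL.ne', Real.exp_log hQ0]
  have hk0 : (0 : ℝ) < k := by exact_mod_cast (by omega : 0 < k)
  refine ⟨3 * L * B1 / A, 1 / κ - 1 / k, max N₀ n1, by positivity, ?_, by
    exact le_trans hN0 (le_max_left _ _), ?_⟩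
  · have := one_div_lt_one_div_of_lt hκ0 hκk
    linarith
  intro M N hM hMN
  have hM0 : N₀ ≤ M := le_trans (le_max_left _ _) hM
  have hM1 : 1 ≤ M := le_trans hN0 hM0
  have hMn : n1 ≤ M := le_trans (le_max_right _ _) hM
  have hfM : 0 < f M := hf.1 M hM1
  have hδ : R₁ ≤ A * f M := by
    have h1 : f n1 ≤ f M := hf.2.1 _ _ hn1 hMn
    rw [div_lt_iff₀ hA] at hn1'
    nlinarith
  have hMr : (0 : ℝ) < M := by exact_mod_cast hM1
  have hNr : (0 : ℝ) < N := by exact_mod_cast (by omega : 0 < N)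
  constructor
  · refine le_trans (nec_a k f hf p A B N₀ hD B1 hB1 hb M N hM0 hMN) ?_
    apply mul_le_mul_of_nonneg_right _ (by positivity)
    apply div_le_div_of_nonneg_right _ hA.le
    nlinarith
  · obtain ⟨j, hj1, hj2⟩ := nec_card k f hf p A B N₀ hD B1 hAB hB1 hb L R₁ hL hR₁ hcount M N
      hM0 hMN hδ
    have hexp : 1 / (k : ℝ) + (1 / κ - 1 / k) = 1 / κ := by ring
    rw [hexp]
    refine le_trans (mul_le_mul_of_nonneg_right ?_ hfM.le) hj2
    -- `(N/M)^(1/κ) ≤ L^j`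
    have h1 : (Q : ℝ) ^ j = ((L : ℝ) ^ j) ^ κ := by
      rw [← hLκ, ← Real.rpow_natCast, ← Real.rpow_natCast, ← Real.rpow_mul hL0.le,
        ← Real.rpow_mul hL0.le, mul_comm]
    rw [h1] at hj1
    have h2 : ((N : ℝ) / M) ^ (1 / κ) ≤ (((L : ℝ) ^ j) ^ κ) ^ (1 / κ) :=
      Real.rpow_le_rpow (by positivity) hj1 (by positivity)
    refine le_trans h2 (le_of_eq ?_)
    rw [← Real.rpow_mul (by positivity), mul_one_div_cancel hκ0.ne', Real.rpow_one]

end Pool.Agent.R672.DS
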