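import Pool.Agent.R672.DS.Defs

/-! Module ONE: in dimension one a distorted sequence is linear. -/

set_option autoImplicit false

namespace Pool.Agent.R672.DS

theorem stmOne : StmOne := by
  intro f hf p A B N₀ hp
  obtain ⟨hpos, hmono, hunb, -⟩ := hf
  obtain ⟨hA, hB, hN₀, hd⟩ := hp
  have hdist : ∀ m n, dist (p m) (p n) = |p m 0 - p n 0| := by
    intro m n
    rw [← Real.dist_eq]
    apply le_antisymm
    · rw [dist_pi_le_iff dist_nonneg]
      intro b
      have hb : b = 0 := Subsingleton.elim _ _
      rw [hb]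
    · exact dist_le_pi_dist (p m) (p n) 0
  set x : ℕ → ℝ := fun n => p n 0 with hx
  have hlow : ∀ m n : ℕ, m + N₀ ≤ n → A * f (n - m) ≤ |x m - x n| := by
    intro m n h
    have := (hd m n h).1
    rwa [hdist] at this
  have hupp : ∀ m n : ℕ, m + N₀ ≤ n → |x m - x n| ≤ B * f (n - m) := by
    intro m n h
    have := (hd m n h).2
    rwa [hdist] at this
  set D : ℝ := B * f (N₀ + 1) + B * f N₀ with hD
  have hstep : ∀ n, |x (n + 1) - x n| ≤ D := by
    intro n
    have h1 := hupp n (n + 1 + N₀) (by omega)
    have h2 := hupp (n + 1) (n + 1 + N₀) (by omega)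
    have e1 : n + 1 + N₀ - n = N₀ + 1 := by omega
    have e2 : n + 1 + N₀ - (n + 1) = N₀ := by omega
    rw [e1] at h1
    rw [e2] at h2
    rw [abs_le] at h1 h2 ⊢
    constructor <;> linarith [h1.1, h1.2, h2.1, h2.2]
  have hD0 : 0 ≤ D := le_trans (abs_nonneg _) (hstep 0)
  obtain ⟨n₁, hn₁, hn₁'⟩ := hunb (2 * D / A)
  set N : ℕ := max n₁ N₀ with hN
  have hN1 : 1 ≤ N := le_trans hn₁ (le_max_left _ _)
  have hNN₀ : N₀ ≤ N := le_max_right _ _
  have hfN : 2 * D < A * f N := by
    have h1 : f n₁ ≤ f N := hmono n₁ N hn₁ (le_max_left _ _)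
    rw [div_lt_iff₀ hA] at hn₁'
    nlinarith
  have hg : ∀ n, A * f N ≤ |x (n + N) - x n| := by
    intro n
    have h1 := hlow n (n + N) (by omega)
    rw [Nat.add_sub_cancel_left, abs_sub_comm] at h1
    exact h1
  -- the sign
  obtain ⟨s, hs, hs0⟩ : ∃ s : ℝ, (s = 1 ∨ s = -1) ∧ A * f N ≤ s * (x (0 + N) - x 0) := by
    have h1 := hg 0
    rcases le_total 0 (x (0 + N) - x 0) with h | h
    · refine ⟨1, Or.inl rfl, ?_⟩
      rw [abs_of_nonneg h] at h1
      linarith
    · refine ⟨-1, Or.inr rfl, ?_⟩
      rw [abs_of_nonpos h] at h1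
      linarith
  have hsg : ∀ n, A * f N ≤ s * (x (n + N) - x n) := by
    intro n
    induction n with
    | zero => exact hs0
    | succ n ih =>
      have h1 := hg (n + 1)
      have h2 := hstep n
      have h3 := hstep (n + N)
      have e1 : n + 1 + N = n + N + 1 := by omega
      rw [e1] at h1 ⊢
      rw [abs_le] at h2 h3
      rcases hs with hs | hs
      · subst hs
        rcases le_abs.1 h1 with h4 | h4
        · linarith
        · linarith [h2.1, h2.2, h3.1, h3.2]
      · subst hs
        rcases le_abs.1 h1 with h4 | h4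
        · linarith [h2.1, h2.2, h3.1, h3.2]
        · linarith
  have hsum : ∀ j : ℕ, (j : ℝ) * (A * f N) ≤ s * (x (j * N) - x 0) := by
    intro j
    induction j with
    | zero => simp
    | succ j ih =>
      have h1 := hsg (j * N)
      have e1 : (j + 1) * N = j * N + N := by ring
      rw [e1]
      push_cast
      have : s * (x (j * N + N) - x 0) = s * (x (j * N + N) - x (j * N)) +
          s * (x (j * N) - x 0) := by ring
      rw [this]
      linarith
  have hlin : ∀ j : ℕ, 1 ≤ j → (j : ℝ) * (A * f N) ≤ B * f (j * N) := by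
    intro j hj
    have h1 := hsum j
    have h2 := hupp 0 (j * N) (by nlinarith)
    rw [Nat.sub_zero] at h2
    have h3 : s * (x (j * N) - x 0) ≤ |x 0 - x (j * N)| := by
      rw [abs_sub_comm]
      rcases hs with hs | hs
      · subst hs
        rw [one_mul]
        exact le_abs_self _
      · subst hs
        have := neg_le_abs (x (j * N) - x 0)
        linarith
    linarith
  have htel : ∀ n : ℕ, |x 0 - x n| ≤ n * D := by
    intro n
    induction n with
    | zero => simp
    | succ n ih =>
      have h1 := hstep n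
      rw [abs_le] at h1 ih ⊢
      push_cast
      constructor <;> linarith [h1.1, h1.2, ih.1, ih.2]
  have hfNpos : 0 < f N := hpos N hN1
  have hNpos : (0 : ℝ) < N := by exact_mod_cast hN1
  refine ⟨A * f N / (2 * N * B), D / A, N, by positivity, ?_⟩
  intro n hn
  constructor
  · set j := n / N with hj
    have hj1 : 1 ≤ j := by
      rw [hj]
      exact (Nat.one_le_div_iff hN1).2 hn
    have h1 := hlin j hj1
    have h2 : f (j * N) ≤ f n := by
      apply hmono
      · nlinarith
      · exact Nat.div_mul_le_self n N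
    have h3 : (n : ℝ) ≤ 2 * N * j := by
      have h4 : n < N * j + N := by
        have h7 := Nat.div_add_mod n N
        rw [← hj] at h7
        have := Nat.mod_lt n (Nat.lt_of_lt_of_le Nat.zero_lt_one hN1)
        omega
      have h5 : n ≤ 2 * N * j := by nlinarith
      exact_mod_cast h5
    have h6 : (j : ℝ) * (A * f N) ≤ B * f n := by
      refine h1.trans ?_
      exact mul_le_mul_of_nonneg_left h2 hB.le
    rw [div_mul_eq_mul_div, div_le_iff₀ (by positivity)]
    calc A * f N * n ≤ A * f N * (2 * N * j) := by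
          apply mul_le_mul_of_nonneg_left h3 (by positivity)
      _ = 2 * N * ((j : ℝ) * (A * f N)) := by ring
      _ ≤ 2 * N * (B * f n) := by
          apply mul_le_mul_of_nonneg_left h6 (by positivity)
      _ = f n * (2 * N * B) := by ring
  · have h1 := hlow 0 n (by omega)
    have h2 := htel n
    rw [Nat.sub_zero] at h1
    rw [div_mul_eq_mul_div, le_div_iff₀ hA]
    calc f n * A = A * f n := mul_comm _ _
      _ ≤ n * D := h1.trans h2
      _ = D * n := mul_comm _ _

end Pool.Agent.R672.DS
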