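import Pool.Agent.R672.DS.Defs

/-! Module PATH: self-avoiding lattice paths of prescribed length in a double cone. -/

set_option autoImplicit false

namespace Pool.Agent.R672.DS

/-- a unit step -/
def PStep {d : ℕ} (v w : Fin d → ℤ) : Prop :=
  ∃ (a : Fin d) (s : ℤ), (s = 1 ∨ s = -1) ∧ w = v + Pi.single a s

theorem PStep.symm {d : ℕ} {v w : Fin d → ℤ} (h : PStep v w) : PStep w v := by
  obtain ⟨a, s, hs, rfl⟩ := h
  refine ⟨a, -s, ?_, ?_⟩
  · rcases hs with rfl | rfl
    · right; rfl
    · left; norm_num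
  · rw [Pi.single_neg]
    abel

theorem cons_add_zero_single {d : ℕ} (x s : ℤ) (v : Fin d → ℤ) :
    (Fin.cons (x + s) v : Fin (d + 1) → ℤ) = Fin.cons x v + Pi.single 0 s := by
  funext c
  refine Fin.cases ?_ (fun c => ?_) c
  · simp
  · simp [Fin.succ_ne_zero]

theorem cons_add_succ_single {d : ℕ} (x s : ℤ) (v : Fin d → ℤ) (a : Fin d) :
    (Fin.cons x (v + Pi.single a s) : Fin (d + 1) → ℤ) = Fin.cons x v + Pi.single a.succ s := by
  funext c
  refine Fin.cases ?_ (fun c => ?_) c
  · simp [(Fin.succ_ne_zero a).symm]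
  · simp [Pi.single_apply, Fin.succ_inj]

theorem cons_zero_single {d : ℕ} (x : ℤ) :
    (Fin.cons x (0 : Fin d → ℤ) : Fin (d + 1) → ℤ) = Pi.single 0 x := by
  funext c
  refine Fin.cases ?_ (fun c => ?_) c
  · simp
  · simp [Fin.succ_ne_zero]

/-- the snake -/
theorem snake (m : ℕ) (hm : 1 ≤ m) : ∀ d : ℕ, ∃ Γ : ℕ → Fin d → ℤ, Γ 0 = 0 ∧
    (∀ t, t + 1 < m ^ d → PStep (Γ t) (Γ (t + 1))) ∧
    (∀ t t', t < m ^ d → t' < m ^ d → Γ t = Γ t' → t = t') ∧
    (∀ t, t < m ^ d → ∀ c, 0 ≤ Γ t c ∧ Γ t c < m) := by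
  intro d
  induction d with
  | zero =>
    refine ⟨fun _ => 0, rfl, ?_, ?_, ?_⟩
    · intro t ht
      simp at ht
    · intro t t' ht ht' _
      simp at ht ht'
      omega
    · intro t _ c
      exact c.elim0
  | succ d ih =>
    obtain ⟨Γ, h0, hst, hinj, hbd⟩ := ih
    set P := m ^ d with hP
    have hP1 : 1 ≤ P := Nat.one_le_pow _ _ hm
    refine ⟨fun t => Fin.cons ((t / P : ℕ) : ℤ)
      (if (t / P) % 2 = 0 then Γ (t % P) else Γ (P - 1 - t % P)), ?_, ?_, ?_, ?_⟩
    · simp only [Nat.zero_div, Nat.zero_mod, if_pos, h0, Nat.cast_zero]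
      rw [cons_zero_single]
      simp
    · intro t ht
      have hr : t % P < P := Nat.mod_lt _ hP1
      have hdm := Nat.div_add_mod t P
      by_cases h1 : t % P + 1 < P
      · have hq : (t + 1) / P = t / P := by
          rw [Nat.div_eq_iff (by omega)]
          have hcomm : t / P * P = P * (t / P) := mul_comm _ _
          constructor <;> omega
        have hr' : (t + 1) % P = t % P + 1 := by
          rw [Nat.add_mod, Nat.mod_eq_of_lt (a := 1) (by omega), Nat.mod_eq_of_lt h1]
        simp only [hq, hr']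
        by_cases hpar : (t / P) % 2 = 0
        · rw [if_pos hpar, if_pos hpar]
          obtain ⟨a, s, hs, hw⟩ := hst (t % P) h1
          refine ⟨a.succ, s, hs, ?_⟩
          rw [hw, cons_add_succ_single]
        · rw [if_neg hpar, if_neg hpar]
          have h2 : P - 1 - t % P = P - 1 - (t % P + 1) + 1 := by omega
          obtain ⟨a, s, hs, hw⟩ := (hst (P - 1 - (t % P + 1)) (by omega)).symm
          rw [← h2] at hw
          refine ⟨a.succ, s, hs, ?_⟩
          rw [hw, cons_add_succ_single]
      · have h2 : t % P = P - 1 := by omega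
        have h3 : t + 1 = P * (t / P + 1) := by
          have : P * (t / P + 1) = P * (t / P) + P := by ring
          omega
        have hq : (t + 1) / P = t / P + 1 := by
          rw [h3, Nat.mul_div_cancel_left _ (by omega)]
        have hr' : (t + 1) % P = 0 := by
          rw [h3]
          exact Nat.mul_mod_right _ _
        simp only [hq, hr', h2]
        refine ⟨0, 1, Or.inl rfl, ?_⟩
        have h4 : (if (t / P + 1) % 2 = 0 then Γ 0 else Γ (P - 1 - 0)) =
            (if (t / P) % 2 = 0 then Γ (P - 1) else Γ (P - 1 - (P - 1))) := by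
          by_cases hpar : (t / P) % 2 = 0
          · rw [if_pos hpar, if_neg (by omega), Nat.sub_zero]
          · rw [if_neg hpar, if_pos (by omega), Nat.sub_self]
        rw [h4, ← cons_add_zero_single]
        push_cast
        rfl
    · intro t t' ht ht' he
      have hr : t % P < P := Nat.mod_lt _ hP1
      have hr' : t' % P < P := Nat.mod_lt _ hP1
      simp only at he
      obtain ⟨e1, e2⟩ := Fin.cons_injective2 he
      have e3 : t / P = t' / P := by exact_mod_cast e1
      rw [← e3] at e2
      have e4 : t % P = t' % P := by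
        by_cases hpar : (t / P) % 2 = 0
        · rw [if_pos hpar, if_pos hpar] at e2
          exact hinj _ _ hr hr' e2
        · rw [if_neg hpar, if_neg hpar] at e2
          have := hinj _ _ (by omega) (by omega) e2
          omega
      rw [← Nat.div_add_mod t P, ← Nat.div_add_mod t' P, e3, e4]
    · intro t ht c
      have hr : t % P < P := Nat.mod_lt _ hP1
      have hq : t / P < m := by
        rw [Nat.div_lt_iff_lt_mul (by omega)]
        rw [pow_succ, mul_comm] at ht
        exact ht
      refine Fin.cases ?_ (fun c => ?_) c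
      · simp only [Fin.cons_zero]
        constructor
        · positivity
        · exact_mod_cast hq
      · simp only [Fin.cons_succ]
        split_ifs
        · exact hbd _ hr c
        · exact hbd _ (by omega) c

/-- an allowed edge -/
def Ed {d : ℕ} (ρ : ℤ) (w w' : Fin (d + 1) → ℤ) : Prop :=
  ∃ (a : Fin (d + 1)) (s : ℤ), (s = 1 ∨ s = -1) ∧ w' = w + Pi.single a s ∧
    ((a = 0 ∧ s = 1 ∧ (∀ c, c ≠ 0 → w c = 0) ∧ 0 ≤ w 0 ∧ w 0 + 1 ≤ ρ) ∨
      (1 ≤ w 0 ∧ w 0 + 1 ≤ ρ ∧
        ∀ c, c ≠ 0 → 4 * (|w c| + 1) ≤ w 0 - 1 ∧ 4 * (|w c| + 1) ≤ ρ - w 0 - 1))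

/-- a path segment between two points of the axis -/
def Seg (d : ℕ) (ρ α β : ℤ) (l : ℕ) : Prop :=
  α ≤ β ∧ ∃ W : ℕ → Fin (d + 1) → ℤ, W 0 = Pi.single 0 α ∧ W l = Pi.single 0 β ∧
    (∀ i, i < l → α ≤ W i 0 ∧ W i 0 < β) ∧ (∀ i, i < l → Ed ρ (W i) (W (i + 1))) ∧
    (∀ i j, i ≤ l → j ≤ l → W i = W j → i = j)

theorem Seg.trans {d : ℕ} {ρ α β γ : ℤ} {l l' : ℕ} (h : Seg d ρ α β l) (h' : Seg d ρ β γ l') :
    Seg d ρ α γ (l + l') := by
  obtain ⟨hab, W, w0, wl, wb, we, wi⟩ := h
  obtain ⟨hbc, V, v0, vl, vb, ve, vi⟩ := h'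
  have hV : ∀ j, j ≤ l' → β ≤ V j 0 := by
    intro j hj
    rcases Nat.lt_or_ge j l' with h1 | h1
    · exact (vb j h1).1
    · have : j = l' := by omega
      subst this
      rw [vl]
      simpa using hbc
  refine ⟨hab.trans hbc, fun i => if i < l then W i else V (i - l), ?_, ?_, ?_, ?_, ?_⟩
  · by_cases hl : 0 < l
    · simp only [if_pos hl]
      exact w0
    · have : l = 0 := by omega
      subst this
      simp only [lt_irrefl, if_false, Nat.sub_zero]
      rw [v0, ← wl, w0]
  · simp only [if_neg (show ¬ (l + l' < l) by omega), Nat.add_sub_cancel_left]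
    exact vl
  · intro i hi
    by_cases h1 : i < l
    · simp only [if_pos h1]
      exact ⟨(wb i h1).1, (wb i h1).2.trans_le hbc⟩
    · simp only [if_neg h1]
      exact ⟨hab.trans (vb (i - l) (by omega)).1, (vb (i - l) (by omega)).2⟩
  · intro i hi
    by_cases h1 : i + 1 < l
    · simp only [if_pos h1, if_pos (show i < l by omega)]
      exact we i (by omega)
    · by_cases h2 : i < l
      · have h3 : i + 1 = l := by omega
        simp only [if_pos h2, if_neg h1]
        rw [h3, Nat.sub_self, v0, ← wl, ← h3]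
        exact we i h2
      · simp only [if_neg h1, if_neg h2]
        have h3 : i + 1 - l = i - l + 1 := by omega
        rw [h3]
        exact ve (i - l) (by omega)
  · intro i j hi hj he
    by_cases h1 : i < l
    · by_cases h2 : j < l
      · simp only [if_pos h1, if_pos h2] at he
        exact wi i j h1.le h2.le he
      · simp only [if_pos h1, if_neg h2] at he
        exfalso
        have h3 := (wb i h1).2
        have h4 := hV (j - l) (by omega)
        rw [he] at h3
        omega
    · by_cases h2 : j < l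
      · simp only [if_neg h1, if_pos h2] at he
        exfalso
        have h3 := (wb j h2).2
        have h4 := hV (i - l) (by omega)
        rw [← he] at h3
        omega
      · simp only [if_neg h1, if_neg h2] at he
        have := vi (i - l) (j - l) (by omega) (by omega) he
        omega

/-- axis segment -/
theorem seg_axis (d : ℕ) (ρ α : ℤ) (l : ℕ) (h0 : 0 ≤ α) (h1 : α + l ≤ ρ) :
    Seg d ρ α (α + l) l := by
  refine ⟨by omega, fun i => Pi.single 0 (α + i), by simp, rfl, ?_, ?_, ?_⟩
  · intro i hi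
    simp only [Pi.single_eq_same]
    constructor <;> omega
  · intro i hi
    refine ⟨0, 1, Or.inl rfl, ?_, Or.inl ⟨rfl, rfl, ?_, ?_, ?_⟩⟩
    · rw [← Pi.single_add]
      push_cast
      rw [add_assoc]
    · intro c hc
      simp [hc]
    · simp only [Pi.single_eq_same]
      omega
    · simp only [Pi.single_eq_same]
      omega
  · intro i j _ _ he
    have := congrFun he 0
    simp only [Pi.single_eq_same] at this
    omega

/-- an excursion -/
theorem seg_exc (d m : ℕ) (hm : 1 ≤ m) (ρ : ℤ) (hρ : 16 * (m : ℤ) + 11 ≤ ρ) (α : ℤ)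
    (h1 : 4 * (m : ℤ) + 5 ≤ α) (h2 : α + 2 ≤ 12 * m + 5) (h : ℕ) (hh : h ≤ m ^ d - 1) :
    Seg d ρ α (α + 2) (2 * h + 2) := by
  obtain ⟨Γ, g0, gs, gi, gb⟩ := snake m hm d
  have hP1 : 1 ≤ m ^ d := Nat.one_le_pow _ _ hm
  set W : ℕ → Fin (d + 1) → ℤ := fun i =>
    if i ≤ h then Fin.cons α (Γ i)
    else if i ≤ 2 * h + 1 then Fin.cons (α + 1) (Γ (2 * h + 1 - i))
    else Pi.single 0 (α + 2) with hW
  have W1 : ∀ i, i ≤ h → W i = Fin.cons α (Γ i) := by
    intro i hi
    simp only [hW, if_pos hi]
  have W2 : ∀ i, h < i → i ≤ 2 * h + 1 → W i = Fin.cons (α + 1) (Γ (2 * h + 1 - i)) := by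
    intro i hi hi'
    simp only [hW, if_neg (show ¬ (i ≤ h) by omega), if_pos hi']
  have W3 : W (2 * h + 2) = Pi.single 0 (α + 2) := by
    simp only [hW, if_neg (show ¬ (2 * h + 2 ≤ h) by omega),
      if_neg (show ¬ (2 * h + 2 ≤ 2 * h + 1) by omega)]
  -- depth
  have hdeep : ∀ (x : ℤ) (t : ℕ), α ≤ x → x ≤ α + 1 → t < m ^ d →
      ∀ c : Fin (d + 1), c ≠ 0 →
        4 * (|(Fin.cons x (Γ t) : Fin (d + 1) → ℤ) c| + 1) ≤ x - 1 ∧
        4 * (|(Fin.cons x (Γ t) : Fin (d + 1) → ℤ) c| + 1) ≤ ρ - x - 1 := by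
    intro x t hx1 hx2 ht c hc
    obtain ⟨c', rfl⟩ := Fin.exists_succ_eq.2 hc
    rw [Fin.cons_succ]
    obtain ⟨b1, b2⟩ := gb t ht c'
    rw [abs_of_nonneg b1]
    constructor <;> omega
  refine ⟨by omega, W, ?_, W3, ?_, ?_, ?_⟩
  · rw [W1 0 (Nat.zero_le _), g0, cons_zero_single]
  · intro i hi
    by_cases hi1 : i ≤ h
    · rw [W1 i hi1]
      simp only [Fin.cons_zero]
      omega
    · rw [W2 i (by omega) (by omega)]
      simp only [Fin.cons_zero]
      omega
  · intro i hi
    by_cases hi1 : i + 1 ≤ h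
    · rw [W1 i (by omega), W1 (i + 1) hi1]
      obtain ⟨a, s, hs, hw⟩ := gs i (by omega)
      refine ⟨a.succ, s, hs, ?_, Or.inr ⟨?_, ?_, ?_⟩⟩
      · rw [hw, cons_add_succ_single]
      · rw [Fin.cons_zero]; omega
      · rw [Fin.cons_zero]; omega
      · intro c hc
        rw [Fin.cons_zero]
        exact hdeep α i le_rfl (by omega) (by omega) c hc
    · by_cases hi2 : i = h
      · subst hi2
        rw [W1 i le_rfl, W2 (i + 1) (by omega) (by omega)]
        have e1 : 2 * i + 1 - (i + 1) = i := by omega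
        rw [e1]
        refine ⟨0, 1, Or.inl rfl, ?_, Or.inr ⟨?_, ?_, ?_⟩⟩
        · rw [cons_add_zero_single]
        · rw [Fin.cons_zero]; omega
        · rw [Fin.cons_zero]; omega
        · intro c hc
          rw [Fin.cons_zero]
          exact hdeep α i le_rfl (by omega) (by omega) c hc
      · by_cases hi3 : i + 1 ≤ 2 * h + 1
        · rw [W2 i (by omega) (by omega), W2 (i + 1) (by omega) hi3]
          have e1 : 2 * h + 1 - i = 2 * h + 1 - (i + 1) + 1 := by omega
          obtain ⟨a, s, hs, hw⟩ := (gs (2 * h + 1 - (i + 1)) (by omega)).symm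
          rw [← e1] at hw
          refine ⟨a.succ, s, hs, ?_, Or.inr ⟨?_, ?_, ?_⟩⟩
          · rw [hw, cons_add_succ_single]
          · rw [Fin.cons_zero]; omega
          · rw [Fin.cons_zero]; omega
          · intro c hc
            rw [Fin.cons_zero]
            exact hdeep (α + 1) (2 * h + 1 - i) (by omega) le_rfl (by omega) c hc
        · have hi4 : i = 2 * h + 1 := by omega
          subst hi4
          rw [W2 (2 * h + 1) (by omega) le_rfl]
          have e2 : 2 * h + 1 + 1 = 2 * h + 2 := by omega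
          rw [e2, W3, Nat.sub_self, g0]
          refine ⟨0, 1, Or.inl rfl, ?_, Or.inr ⟨?_, ?_, ?_⟩⟩
          · rw [← cons_add_zero_single, cons_zero_single]
            congr 1
            ring
          · rw [Fin.cons_zero]; omega
          · rw [Fin.cons_zero]; omega
          · intro c hc
            rw [Fin.cons_zero]
            have := hdeep (α + 1) 0 (by omega) le_rfl (by omega) c hc
            rw [g0] at this
            exact this
  · have key : ∀ i j, i < j → j ≤ 2 * h + 2 → W i ≠ W j := by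
      intro i j hij hj he
      by_cases hj3 : j = 2 * h + 2
      · subst hj3
        have h3 : W i 0 < α + 2 := by
          by_cases hi1 : i ≤ h
          · rw [W1 i hi1, Fin.cons_zero]; omega
          · rw [W2 i (by omega) (by omega), Fin.cons_zero]; omega
        rw [he, W3, Pi.single_eq_same] at h3
        omega
      · by_cases hj1 : j ≤ h
        · rw [W1 i (by omega), W1 j hj1] at he
          have := gi i j (by omega) (by omega) (Fin.cons_injective2 he).2
          omega
        · by_cases hi1 : i ≤ h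
          · rw [W1 i hi1, W2 j (by omega) (by omega)] at he
            have := (Fin.cons_injective2 he).1
            omega
          · rw [W2 i (by omega) (by omega), W2 j (by omega) (by omega)] at he
            have := gi _ _ (by omega) (by omega) (Fin.cons_injective2 he).2
            omega
    intro i j hi hj he
    rcases lt_trichotomy i j with h3 | h3 | h3
    · exact absurd he (key i j h3 hj)
    · exact h3
    · exact absurd he.symm (key j i h3 hi)

theorem seg_many (d m : ℕ) (hm : 1 ≤ m) (ρ : ℤ) (hρ : 16 * (m : ℤ) + 11 ≤ ρ) : ∀ (Q : ℕ) (α : ℤ),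
    4 * (m : ℤ) + 5 ≤ α → α + 2 * Q ≤ 12 * m + 5 → ∀ e : ℕ, e ≤ Q * (m ^ d - 1) →
      Seg d ρ α (α + 2 * Q) (2 * Q + 2 * e) := by
  intro Q
  induction Q with
  | zero =>
    intro α h1 h2 e he
    have he0 : e = 0 := by simpa using he
    subst he0
    have := seg_axis d ρ α 0 (by omega) (by push_cast at h2 ⊢; omega)
    simpa using this
  | succ Q ih =>
    intro α h1 h2 e he
    set H := m ^ d - 1 with hH
    have h3 : min e H ≤ H := min_le_right _ _
    have he' : e - min e H ≤ Q * H := by
      rcases le_total e H with h4 | h4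
      · rw [min_eq_left h4, Nat.sub_self]
        exact Nat.zero_le _
      · rw [min_eq_right h4]
        have : (Q + 1) * H = Q * H + H := by ring
        omega
    have s1 := seg_exc d m hm ρ hρ α h1 (by push_cast at h2; omega) (min e H) h3
    have s2 := ih (α + 2) (by omega) (by push_cast at h2; omega) (e - min e H) he'
    have s3 := s1.trans s2
    have e1 : α + 2 + 2 * (Q : ℤ) = α + 2 * ((Q + 1 : ℕ) : ℤ) := by push_cast; ring
    have e2 : 2 * min e H + 2 + (2 * Q + 2 * (e - min e H)) = 2 * (Q + 1) + 2 * e := by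
      have := min_le_left e H
      omega
    rw [e1, e2] at s3
    exact s3

theorem stmPath : StmPath := by
  intro d m ρ L hd hm hρ hρo hLo hρL hL
  obtain ⟨r, hr⟩ := hρo
  obtain ⟨q, hq⟩ := hLo
  set e : ℕ := q - r with he
  have hL2 : L = ρ + 2 * e := by omega
  have hm1 : 1 ≤ m := by omega
  have hP1 : 1 ≤ m ^ d := Nat.one_le_pow _ _ hm1
  have hρ' : 16 * (m : ℤ) + 11 ≤ (ρ : ℤ) := by exact_mod_cast hρ
  have hebd : e ≤ (4 * m) * (m ^ d - 1) := by
    have h1 : 4 * m * (m ^ d - 1) + 4 * m = 4 * m ^ (d + 1) := by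
      obtain ⟨P, hP⟩ : ∃ P, m ^ d = P + 1 := ⟨m ^ d - 1, by omega⟩
      rw [pow_succ, hP, Nat.add_sub_cancel]
      ring
    omega
  have s1 := seg_axis d (ρ : ℤ) 1 (4 * m + 4) (by norm_num) (by push_cast; omega)
  have s2 := seg_many d m hm1 (ρ : ℤ) hρ' (4 * m) (4 * (m : ℤ) + 5) le_rfl
    (by push_cast; omega) e hebd
  have s3 := seg_axis d (ρ : ℤ) (12 * (m : ℤ) + 5) (ρ - 1 - (12 * m + 5)) (by positivity)
    (by omega)
  have e1 : (1 : ℤ) + ((4 * m + 4 : ℕ) : ℤ) = 4 * (m : ℤ) + 5 := by push_cast; ring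
  have e2 : 4 * (m : ℤ) + 5 + 2 * ((4 * m : ℕ) : ℤ) = 12 * (m : ℤ) + 5 := by push_cast; ring
  have e3 : 12 * (m : ℤ) + 5 + ((ρ - 1 - (12 * m + 5) : ℕ) : ℤ) = (ρ : ℤ) - 1 := by
    omega
  rw [e1] at s1
  rw [e2] at s2
  rw [e3] at s3
  have s4 := (s1.trans s2).trans s3
  have e4 : 4 * m + 4 + (2 * (4 * m) + 2 * e) + (ρ - 1 - (12 * m + 5)) = L - 2 := by omega
  rw [e4] at s4
  obtain ⟨hab, V, v0, vl, vb, ve, vi⟩ := s4
  have hL3 : 2 ≤ L := by omega
  set W : ℕ → Fin (d + 1) → ℤ := fun i =>
    if i = 0 then 0 else if i ≤ L - 1 then V (i - 1) else Pi.single 0 (ρ : ℤ) with hW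
  have W0 : W 0 = 0 := by simp only [hW, if_pos]
  have W1 : ∀ i, 1 ≤ i → i ≤ L - 1 → W i = V (i - 1) := by
    intro i h1 h2
    simp only [hW, if_neg (show ¬ i = 0 by omega), if_pos h2]
  have W2 : W L = Pi.single 0 (ρ : ℤ) := by
    simp only [hW, if_neg (show ¬ L = 0 by omega), if_neg (show ¬ L ≤ L - 1 by omega)]
  have hE : ∀ i, i < L → Ed (ρ : ℤ) (W i) (W (i + 1)) := by
    intro i hi
    by_cases hi0 : i = 0
    · subst hi0
      rw [W0, W1 (0 + 1) (by omega) (by omega)]
      have : 0 + 1 - 1 = 0 := rfl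
      rw [this, v0]
      refine ⟨0, 1, Or.inl rfl, by simp, Or.inl ⟨rfl, rfl, fun c _ => rfl, le_rfl, ?_⟩⟩
      simp only [Pi.zero_apply]
      omega
    · by_cases hi1 : i = L - 1
      · have e5 : i + 1 = L := by omega
        rw [e5, W2, W1 i (by omega) (by omega)]
        have e6 : i - 1 = L - 2 := by omega
        rw [e6, vl]
        refine ⟨0, 1, Or.inl rfl, ?_, Or.inl ⟨rfl, rfl, ?_, ?_, ?_⟩⟩
        · rw [← Pi.single_add]
          congr 1
          ring
        · intro c hc
          simp [hc]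
        · rw [Pi.single_eq_same]; omega
        · rw [Pi.single_eq_same]; omega
      · rw [W1 i (by omega) (by omega), W1 (i + 1) (by omega) (by omega)]
        have e5 : i + 1 - 1 = i - 1 + 1 := by omega
        rw [e5]
        exact ve (i - 1) (by omega)
  have hV0 : ∀ i, 1 ≤ i → i ≤ L - 1 → 1 ≤ W i 0 ∧ W i 0 ≤ (ρ : ℤ) - 1 := by
    intro i h1 h2
    rw [W1 i h1 h2]
    rcases Nat.lt_or_ge (i - 1) (L - 2) with h3 | h3
    · have := vb (i - 1) h3
      omega
    · have e5 : i - 1 = L - 2 := by omega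
      rw [e5, vl, Pi.single_eq_same]
      omega
  choose! a σ hσ hw hreg using hE
  -- values outside the range
  refine ⟨W, fun i => if i < L then a i else 0, fun i => if i < L then σ i else 1, W0, W2,
    ?_, ?_, ?_, ?_, ?_, ?_, ?_, ?_⟩
  · intro i
    show (if i < L then σ i else 1) = 1 ∨ (if i < L then σ i else 1) = -1
    split_ifs with h1
    · exact hσ i h1
    · exact Or.inl rfl
  · intro i hi
    show W (i + 1) = W i + Pi.single (if i < L then a i else 0) (if i < L then σ i else 1)
    rw [if_pos hi, if_pos hi]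
    exact hw i hi
  · have key : ∀ i j, i < j → j ≤ L → W i ≠ W j := by
      intro i j hij hj heq
      by_cases hj1 : j = L
      · subst hj1
        have h5 : W i 0 ≤ (ρ : ℤ) - 1 := by
          by_cases hi0 : i = 0
          · subst hi0
            rw [W0]
            simp only [Pi.zero_apply]
            omega
          · exact (hV0 i (by omega) (by omega)).2
        rw [heq, W2, Pi.single_eq_same] at h5
        omega
      · by_cases hi0 : i = 0
        · subst hi0
          have h5 := (hV0 j (by omega) (by omega)).1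
          rw [← heq, W0] at h5
          simp at h5
        · rw [W1 i (by omega) (by omega), W1 j (by omega) (by omega)] at heq
          have := vi (i - 1) (j - 1) (by omega) (by omega) heq
          omega
    intro i j hi hj heq
    rcases lt_trichotomy i j with h3 | h3 | h3
    · exact absurd heq (key i j h3 hj)
    · exact h3
    · exact absurd heq.symm (key j i h3 hi)
  · show (if 0 < L then a 0 else 0) = 0
    rw [if_pos (by omega)]
    have h5 := hw 0 (by omega)
    rw [W0, W1 (0 + 1) (by omega) (by omega)] at h5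
    have : 0 + 1 - 1 = 0 := rfl
    rw [this, v0, zero_add] at h5
    have h6 := congrFun h5 0
    rw [Pi.single_eq_same, Pi.single_apply] at h6
    by_contra h7
    rw [if_neg (fun h8 => h7 h8.symm)] at h6
    omega
  · show (if 0 < L then σ 0 else 1) = 1
    rw [if_pos (by omega)]
    have h5 := hw 0 (by omega)
    rw [W0, W1 (0 + 1) (by omega) (by omega)] at h5
    have : 0 + 1 - 1 = 0 := rfl
    rw [this, v0, zero_add] at h5
    have h6 := congrFun h5 0
    rw [Pi.single_eq_same, Pi.single_apply] at h6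
    split_ifs at h6
    · exact h6.symm
    · omega
  · show (if L - 1 < L then a (L - 1) else 0) = 0
    rw [if_pos (by omega)]
    have h5 := hw (L - 1) (by omega)
    have e5 : L - 1 + 1 = L := by omega
    rw [e5, W2, W1 (L - 1) (by omega) (by omega)] at h5
    have e6 : L - 1 - 1 = L - 2 := by omega
    rw [e6, vl] at h5
    have h6 := congrFun h5 0
    rw [Pi.add_apply, Pi.single_eq_same, Pi.single_eq_same, Pi.single_apply] at h6
    by_contra h7
    rw [if_neg (fun h8 => h7 h8.symm)] at h6
    omega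
  · show (if L - 1 < L then σ (L - 1) else 1) = 1
    rw [if_pos (by omega)]
    have h5 := hw (L - 1) (by omega)
    have e5 : L - 1 + 1 = L := by omega
    rw [e5, W2, W1 (L - 1) (by omega) (by omega)] at h5
    have e6 : L - 1 - 1 = L - 2 := by omega
    rw [e6, vl] at h5
    have h6 := congrFun h5 0
    rw [Pi.add_apply, Pi.single_eq_same, Pi.single_eq_same, Pi.single_apply] at h6
    split_ifs at h6
    · omega
    · omega
  · intro i hi
    simp only [if_pos hi]
    exact hreg i hi

end Pool.Agent.R672.DS
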