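import Pool.Agent.R672.DS.Suff
import Pool.Agent.R672.DS.Path

namespace Pool.Agent.R672.DS

variable {d : ℕ}

/-- The finite pieces. -/
noncomputable def pseq (L : ℕ) (F : ℕ → ℝ) (Ws : ℕ → ℕ → Fin (d + 1) → ℤ)
    (as : ℕ → ℕ → Fin (d + 1)) (σs : ℕ → ℕ → ℤ) : ℕ → ℕ → Fin (d + 1) → ℝ
  | 0 => fun n => if n = 0 then 0 else Pi.single 0 1
  | j + 1 => stepF (L ^ j) (sseq L F j) (Ws (rseq L F j)) (as (rseq L F j)) (σs (rseq L F j))
      (pseq L F Ws as σs j)

lemma stepF_first {T L ρ : ℕ} {s : ℝ} {W : ℕ → Fin (d + 1) → ℤ} {a : ℕ → Fin (d + 1)} {σ : ℕ → ℤ}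
    {P : ℕ → Fin (d + 1) → ℝ} (hT : 1 ≤ T) (hL : 1 ≤ L) (pd : PD d L ρ W a σ) (h0 : P 0 = 0)
    (hPT : P T = Pi.single 0 s) (r : ℕ) (hr : r ≤ T) :
    stepF T s W a σ P r = P r := by
  have h := stepF_eq hT pd h0 hPT 0 r hL hr
  rw [Nat.zero_mul, Nat.zero_add] at h
  rw [h, pd.w0, pd.a0, pd.s0]
  funext c
  simp [pt, rot_id]

/-- One-sided sequence with cone bounds. -/
theorem one_sided (hd : 1 ≤ d) {f : ℕ → ℝ} (hf : IsRate f) (hc : Crit (d + 1) f) :
    ∃ (p : ℕ → Fin (d + 1) → ℝ) (A B : ℝ), 0 < A ∧ 0 < B ∧ p 0 = 0 ∧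
      (∀ a b, 1 ≤ a → 1 ≤ b → A * f (a + b) ≤ max (f a) (f b)) ∧
      (∀ n, ∀ c, |p n c| ≤ p n 0) ∧
      (∀ n, 1 ≤ n → A * f n ≤ p n 0 ∧ p n 0 ≤ B * f n) ∧
      (∀ m n, m < n → A * f (n - m) ≤ dist (p m) (p n) ∧ dist (p m) (p n) ≤ B * f (n - m)) := by
  obtain ⟨C, ε, hC, hε, hCr⟩ := crit_global hf hc
  obtain ⟨fpos, fmono, -, -⟩ := hf
  have hf1 : 0 < f 1 := fpos 1 le_rfl
  obtain ⟨m, hm5, hm⟩ := exists_base (show 2 ≤ d + 1 by omega) hC hε
  set β : ℝ := 1 / ((d + 1 : ℕ) : ℝ) + ε with hβ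
  have hβ0 : 0 ≤ β := by positivity
  set F : ℕ → ℝ := fun n => f n / f 1 with hF
  have Fpos : ∀ n, 1 ≤ n → 0 < F n := fun n hn => div_pos (fpos n hn) hf1
  have Fmono : ∀ m n, 1 ≤ m → m ≤ n → F m ≤ F n := fun m n h1 h2 =>
    div_le_div_of_nonneg_right (fmono m n h1 h2) hf1.le
  have hF1 : F 1 = 1 := div_self hf1.ne'
  have hup : ∀ M N : ℕ, 1 ≤ M → M ≤ N → F N ≤ C * ((N : ℝ) / M * F M) := by
    intro M N h1 h2
    have := (hCr M N h1 h2).1
    simp only [hF]
    rw [div_le_iff₀ hf1]
    calc f N ≤ _ := this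
      _ = _ := by field_simp
  have hlow : ∀ M N : ℕ, 1 ≤ M → M ≤ N → ((N : ℝ) / M) ^ β * F M ≤ C * F N := by
    intro M N h1 h2
    have := (hCr M N h1 h2).2
    simp only [hF]
    rw [mul_div_assoc', mul_div_assoc']
    exact div_le_div_of_nonneg_right this hf1.le
  -- base
  set k : ℕ := d + 1 with hk
  have hmk : m ^ 2 ≤ m ^ k := Nat.pow_le_pow_right (by omega) (by omega)
  have hmk2 : 25 ≤ m ^ k := le_trans (by nlinarith) hmk
  set L : ℕ := 4 * m ^ k - 1 with hL
  set R : ℕ := 16 * m + 11 with hR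
  have hRodd : Odd R := ⟨8 * m + 5, by omega⟩
  have hLodd : Odd L := ⟨2 * m ^ k - 1, by omega⟩
  have hRL : R ≤ L := by
    have : 16 * m + 12 ≤ 4 * m ^ 2 := by nlinarith
    omega
  have hL1 : 1 ≤ L := by omega
  have hL2 : 2 ≤ L := by omega
  have hRβ : C * R ≤ (L : ℝ) ^ β := by
    have h1 : ((m : ℝ) ^ k) ≤ L := by
      have : m ^ k ≤ L := by omega
      exact_mod_cast this
    have h2 : ((m : ℝ) ^ k) ^ β ≤ (L : ℝ) ^ β := Real.rpow_le_rpow (by positivity) h1 hβ0
    have h3 : (R : ℝ) ≤ 27 * m := by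
      have : R ≤ 27 * m := by omega
      exact_mod_cast this
    calc C * R ≤ C * (27 * m) := mul_le_mul_of_nonneg_left h3 (by linarith)
      _ ≤ _ := hm
      _ ≤ _ := h2
  have hsel : ∀ ρ : ℕ, (R ≤ ρ ∧ Odd ρ ∧ ρ ≤ L) → ∃ W a σ, PD d L ρ W a σ := by
    intro ρ ⟨h1, h2, h3⟩
    have hkk : m ^ (d + 1) = m ^ k := rfl
    exact exists_PD (stmPath d m ρ L hd (by omega) h1 h2 hLodd h3 (by omega))
  choose! Ws as σs hPD using hsel
  set s := sseq L F with hs
  have inv := sseq_inv hC hF1 Fpos hRodd hRL hLodd hup hlow hRβ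
  set Λ : ℝ := 3 * C ^ 2 * L with hΛ
  have hLr : (1 : ℝ) ≤ L := by exact_mod_cast hL1
  have hΛ1 : 1 ≤ Λ := by
    have : 1 ≤ C ^ 2 := by nlinarith
    nlinarith
  have hpow : ∀ j, 1 ≤ L ^ j := fun j => Nat.one_le_pow _ _ hL1
  have hFs : ∀ j, F (L ^ j) ≤ 3 * C * s j := by
    intro j
    obtain ⟨⟨-, -, i, hij, hi⟩, -⟩ := inv j
    have h1 := hup (L ^ i) (L ^ j) (hpow i) (Nat.pow_le_pow_right hL1 hij)
    have h2 : ((L ^ j : ℕ) : ℝ) / ((L ^ i : ℕ) : ℝ) = (L : ℝ) ^ (j - i) := by
      push_cast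
      rw [div_eq_iff (by positivity), ← pow_add]
      congr 1; omega
    rw [h2] at h1
    calc F (L ^ j) ≤ C * ((L : ℝ) ^ (j - i) * F (L ^ i)) := h1
      _ ≤ C * (3 * s j) := mul_le_mul_of_nonneg_left hi (by linarith)
      _ = _ := by ring
  set K : ℝ := 2 * C with hK
  have FK : ∀ a b, 1 ≤ a → 1 ≤ b → F (a + b) ≤ K * max (F a) (F b) := by
    have aux : ∀ a b, 1 ≤ a → b ≤ a → F (a + b) ≤ K * F a := by
      intro a b ha hb
      have h1 := hup a (a + b) ha (by omega)
      have ha0 : (0 : ℝ) < a := by exact_mod_cast (by omega : 0 < a)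
      have h2 : ((a + b : ℕ) : ℝ) / a ≤ 2 := by
        rw [div_le_iff₀ ha0]; push_cast
        have : (b : ℝ) ≤ a := by exact_mod_cast hb
        linarith
      calc F (a + b) ≤ _ := h1
        _ ≤ C * (2 * F a) := by
          apply mul_le_mul_of_nonneg_left _ (by linarith)
          exact mul_le_mul_of_nonneg_right h2 (Fpos a ha).le
        _ = _ := by ring
    intro a b ha hb
    rcases le_total b a with h | h
    · exact (aux a b ha h).trans (mul_le_mul_of_nonneg_left (le_max_left _ _) (by positivity))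
    · rw [Nat.add_comm]
      exact (aux b a hb h).trans (mul_le_mul_of_nonneg_left (le_max_right _ _) (by positivity))
  set c1 : ℝ := 1 / Λ with hc1
  set c2 : ℝ := 3 / (4 * Λ * K) with hc2
  set C2 : ℝ := 2 * Λ with hC2
  have hK2 : 2 ≤ K := by linarith
  have hc1p : 0 < c1 := by positivity
  have hc2p : 0 < c2 := by positivity
  have k1 : c1 * Λ ≤ 1 := by rw [hc1, one_div, inv_mul_cancel₀ (by positivity)]
  have k3 : c2 * K ≤ 3 / 4 * c1 := by
    rw [hc1, hc2]
    have : 3 / (4 * Λ * K) * K = 3 / 4 * (1 / Λ) := by field_simp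
    rw [this]
  have k4 : c2 * Λ ≤ 3 / 4 := by
    rw [hc2]
    have : 3 / (4 * Λ * K) * Λ = 3 / (4 * K) := by field_simp
    rw [this, div_le_div_iff₀ (by positivity) (by norm_num)]
    nlinarith
  set P := pseq L F Ws as σs with hP
  have hblock : ∀ j, Block (P j) (L ^ j) (s j) F c1 c2 Λ C2 := by
    intro j
    induction j with
    | zero =>
      have hc1le : c1 ≤ 1 := by rw [hc1, div_le_one (by linarith)]; exact hΛ1
      have hc2le : c2 ≤ 1 := by
        have : c2 * 1 ≤ c2 * Λ := mul_le_mul_of_nonneg_left hΛ1 hc2p.le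
        linarith
      have e0 : P 0 0 = 0 := by simp [hP, pseq]
      have e1 : P 0 1 = Pi.single 0 1 := by simp [hP, pseq]
      have s0 : s 0 = 1 := by simp [hs, sseq]
      have hin0 : InK (1 : ℝ) (0 : Fin (d + 1) → ℝ) := by
        refine ⟨le_rfl, by simp, fun c _ => ?_⟩
        simp
      have hin1 : InK (1 : ℝ) (Pi.single 0 1 : Fin (d + 1) → ℝ) := by
        refine ⟨by simp, by simp, fun c hc => ?_⟩
        rw [Pi.single_eq_of_ne hc]
        simp
      have hdist : dist (0 : Fin (d + 1) → ℝ) (Pi.single 0 1) = 1 := by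
        rw [dist_comm, dist_zero_right]
        apply le_antisymm
        · rw [pi_norm_le_iff_of_nonneg (by norm_num)]
          intro c
          by_cases hc : c = 0
          · subst hc; simp
          · rw [Pi.single_eq_of_ne hc]; simp
        · have := norm_le_pi_norm (Pi.single 0 1 : Fin (d + 1) → ℝ) 0
          simpa using this
      rw [pow_zero, s0]
      refine ⟨e0, e1, ?_, ?_, ?_, ?_, ?_, ?_, ?_⟩
      · intro n hn
        interval_cases n
        · rw [e0]; exact hin0
        · rw [e1]; exact hin1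
      · intro n hn hn1
        have : n = 1 := by omega
        subst this
        rw [e1, hF1]; simpa using hc1le
      · intro n hn
        have : n = 0 := by omega
        subst this
        rw [e0]; simp only [Nat.sub_zero, hF1, Pi.zero_apply, sub_zero, mul_one]; exact hc1le
      · intro n hn hn1
        have : n = 1 := by omega
        subst this
        rw [e1, hF1]; simpa using hΛ1
      · intro n hn
        have : n = 0 := by omega
        subst this
        rw [e0]; simp only [Nat.sub_zero, hF1, Pi.zero_apply, sub_zero, mul_one]; exact hΛ1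
      · intro m' n hmn hn
        have : n = 1 := by omega
        subst this
        have : m' = 0 := by omega
        subst this
        rw [e0, e1, hdist, Nat.sub_zero, hF1]; linarith
      · intro m' n hmn hn
        have : n = 1 := by omega
        subst this
        have : m' = 0 := by omega
        subst this
        rw [e0, e1, hdist, Nat.sub_zero, hF1]; linarith
    | succ j ih =>
      obtain ⟨⟨hs0, hsF, -⟩, hr1, hr2, hr3⟩ := inv j
      have hpd := hPD (rseq L F j) ⟨hr1, hr3, hr2⟩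
      have h1 : F (L * L ^ j) ≤ Λ * s j := by
        have h2 := hup (L ^ j) (L * L ^ j) (hpow j) (Nat.le_mul_of_pos_left _ (by omega))
        have h3 : ((L * L ^ j : ℕ) : ℝ) / ((L ^ j : ℕ) : ℝ) = L := by
          push_cast; field_simp
        rw [h3] at h2
        calc F (L * L ^ j) ≤ C * (L * F (L ^ j)) := h2
          _ ≤ C * (L * (3 * C * s j)) := by
            apply mul_le_mul_of_nonneg_left _ (by linarith)
            exact mul_le_mul_of_nonneg_left (hFs j) (by linarith)
          _ = Λ * s j := by rw [hΛ]; ring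
      have h2 : (rseq L F j : ℝ) * s j ≤ Λ * F (L ^ j) := by
        have h3 : (rseq L F j : ℝ) ≤ Λ := by
          have h4 : (rseq L F j : ℝ) ≤ L := by exact_mod_cast hr2
          have : 1 ≤ C ^ 2 := by nlinarith
          nlinarith
        exact mul_le_mul h3 hsF hs0.le (by linarith)
      have h3 := block_step hd (hpow j) hs0 hL1 hpd ih Fpos Fmono FK hc1p hc2p h1 h2 k1 le_rfl k3
        k4 (by rw [hC2]) (by rw [hC2]; linarith)
      have h4 : L ^ (j + 1) = L * L ^ j := by rw [pow_succ, Nat.mul_comm]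
      rw [h4]
      exact h3
  have hstab1 : ∀ j n, n ≤ L ^ j → P (j + 1) n = P j n := by
    intro j n hn
    obtain ⟨⟨hs0, hsF, -⟩, hr1, hr2, hr3⟩ := inv j
    have hpd := hPD (rseq L F j) ⟨hr1, hr3, hr2⟩
    exact stepF_first (hpow j) hL1 hpd (hblock j).z (hblock j).e n hn
  have hstab : ∀ j i n, n ≤ L ^ j → P (j + i) n = P j n := by
    intro j i
    induction i with
    | zero => intro n _; rfl
    | succ i ih =>
      intro n hn
      rw [← Nat.add_assoc, hstab1 (j + i) n (hn.trans (Nat.pow_le_pow_right hL1 (by omega))), ih n hn]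
  have hnL : ∀ n, n ≤ L ^ n := fun n => (Nat.lt_pow_self (by omega)).le
  set p : ℕ → Fin (d + 1) → ℝ := fun n => P n n with hp
  have hpP : ∀ m n, m ≤ n → p m = P n m := by
    intro m' n hmn
    obtain ⟨i, rfl⟩ := Nat.exists_eq_add_of_le hmn
    exact (hstab m' i m' (hnL m')).symm
  set A : ℝ := min (min (1 / K) (c1 / f 1)) (c2 / f 1) with hA
  have hA0 : 0 < A := by
    apply lt_min (lt_min _ _) <;> positivity
  have hAK : A ≤ 1 / K := (min_le_left _ _).trans (min_le_left _ _)
  have hAc1 : A ≤ c1 / f 1 := (min_le_left _ _).trans (min_le_right _ _)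
  have hAc2 : A ≤ c2 / f 1 := min_le_right _ _
  have hfF : ∀ n, f n = f 1 * F n := fun n => by simp only [hF]; field_simp
  refine ⟨p, A, C2 / f 1, hA0, by positivity, ?_, ?_, ?_, ?_, ?_⟩
  · exact (hblock 0).z
  · intro a b ha hb
    have h1 := FK a b ha hb
    have hFab := Fpos (a + b) (by omega)
    have h2 : A * F (a + b) ≤ max (F a) (F b) := by
      calc A * F (a + b) ≤ 1 / K * (K * max (F a) (F b)) :=
            mul_le_mul hAK h1 hFab.le (by positivity)
        _ = _ := by field_simp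
    have h3 : max (f a) (f b) = f 1 * max (F a) (F b) := by
      rw [mul_max_of_nonneg _ _ hf1.le, ← hfF, ← hfF]
    rw [h3, hfF (a + b)]
    nlinarith
  · intro n c
    have h := (hblock n).inK n (hnL n)
    by_cases hc : c = 0
    · subst hc
      rw [abs_of_nonneg h.1]
    · have h2 := h.2.2 c hc
      have h3 := abs_nonneg (P n n c)
      have h4 : 4 * |P n n c| ≤ P n n 0 := h2.1
      show |P n n c| ≤ P n n 0
      linarith
  · intro n hn
    have h1 := (hblock n).lowS n (hnL n) hn
    have h2 := (hblock n).upS n (hnL n) hn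
    have hFn := Fpos n hn
    have hfn := fpos n hn
    constructor
    · calc A * f n ≤ c1 / f 1 * f n := mul_le_mul_of_nonneg_right hAc1 hfn.le
        _ = c1 * F n := by simp only [hF]; ring
        _ ≤ _ := h1
    · calc p n 0 ≤ Λ * F n := h2
        _ ≤ C2 * F n := by
          apply mul_le_mul_of_nonneg_right _ hFn.le
          rw [hC2]; linarith
        _ = C2 / f 1 * f n := by simp only [hF]; ring
  · intro m' n hmn
    rw [hpP m' n hmn.le]
    have h1 := (hblock n).low m' n hmn (hnL n)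
    have h2 := (hblock n).up m' n hmn (hnL n)
    have hfn := fpos (n - m') (by omega)
    constructor
    · calc A * f (n - m') ≤ c2 / f 1 * f (n - m') := mul_le_mul_of_nonneg_right hAc2 hfn.le
        _ = c2 * F (n - m') := by simp only [hF]; ring
        _ ≤ _ := h1
    · calc dist (P n m') (p n) ≤ C2 * F (n - m') := h2
        _ = C2 / f 1 * f (n - m') := by simp only [hF]; ring

/-- Two-sided sequence. -/
theorem two_sided (hd : 1 ≤ d) {f : ℕ → ℝ} (hf : IsRate f) (hc : Crit (d + 1) f) :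
    ∃ (q : ℤ → Fin (d + 1) → ℝ) (A B : ℝ), 0 < A ∧ 0 < B ∧
      ∀ z w : ℤ, w < z → A * f (z - w).natAbs ≤ dist (q z) (q w) ∧
        dist (q z) (q w) ≤ B * f (z - w).natAbs := by
  obtain ⟨p, A, B, hA, hB, hp0, hK, hcone, hS, hD⟩ := one_sided hd hf hc
  obtain ⟨fpos, fmono, -, -⟩ := hf
  refine ⟨fun z => if 0 ≤ z then p z.toNat else - p (-z).toNat, min A (A * A), 2 * B,
    by positivity, by positivity, ?_⟩
  have hnorm : ∀ n, ‖p n‖ = p n 0 := by
    intro n
    have h0 : 0 ≤ p n 0 := (abs_nonneg _).trans (hcone n 0)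
    apply le_antisymm
    · rw [pi_norm_le_iff_of_nonneg h0]
      intro c
      exact hcone n c
    · have := norm_le_pi_norm (p n) 0
      rw [Real.norm_eq_abs, abs_of_nonneg h0] at this
      exact this
  have hp00 : ∀ n, 0 ≤ p n 0 := fun n => (abs_nonneg _).trans (hcone n 0)
  intro z w hwz
  have hfz := fpos (z - w).natAbs (by omega)
  have hA1 : min A (A * A) * f (z - w).natAbs ≤ A * f (z - w).natAbs :=
    mul_le_mul_of_nonneg_right (min_le_left _ _) hfz.le
  have hA2 : min A (A * A) * f (z - w).natAbs ≤ A * (A * f (z - w).natAbs) := by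
    rw [← mul_assoc]
    exact mul_le_mul_of_nonneg_right (min_le_right _ _) hfz.le
  have hB1 : B * f (z - w).natAbs ≤ 2 * B * f (z - w).natAbs := by nlinarith [mul_pos hB hfz]
  by_cases hz : 0 ≤ z
  · by_cases hw : 0 ≤ w
    · simp only [hz, hw, if_true]
      have h := hD w.toNat z.toNat (by omega)
      have h1 : z.toNat - w.toNat = (z - w).natAbs := by omega
      rw [h1, dist_comm] at h
      exact ⟨hA1.trans h.1, h.2.trans hB1⟩
    · simp only [hz, if_true]
      rw [if_neg hw, dist_eq_norm, sub_neg_eq_add]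
      set a := z.toNat with ha
      set b := (-w).toNat with hb
      have hb1 : 1 ≤ b := by omega
      have hab : (z - w).natAbs = a + b := by omega
      have hSb := hS b hb1
      have hlow0 : p a 0 + p b 0 ≤ ‖p a + p b‖ := by
        have := norm_le_pi_norm (p a + p b) 0
        rw [Real.norm_eq_abs, Pi.add_apply] at this
        exact (le_abs_self _).trans this
      have hup0 : ‖p a + p b‖ ≤ p a 0 + p b 0 := by
        rw [← hnorm a, ← hnorm b]; exact norm_add_le _ _
      rcases Nat.eq_zero_or_pos a with ha0 | ha0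
      · rw [ha0] at hlow0 hup0 hab ⊢
        rw [Nat.zero_add] at hab
        rw [hab] at hA1 hB1 ⊢
        have hp00' : p 0 0 = 0 := by rw [hp0]; rfl
        rw [hp00'] at hlow0 hup0
        constructor
        · linarith [hSb.1]
        · linarith [hSb.2]
      · have hSa := hS a ha0
        have hKab := hK a b ha0 hb1
        rw [hab] at hA2 ⊢
        have hmono1 := fmono a (a + b) ha0 (by omega)
        have hmono2 := fmono b (a + b) hb1 (by omega)
        constructor
        · have h5 : A * max (f a) (f b) ≤ p a 0 + p b 0 := by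
            rw [mul_max_of_nonneg _ _ hA.le]
            exact max_le (by linarith [hp00 b]) (by linarith [hp00 a])
          have h6 := mul_le_mul_of_nonneg_left hKab hA.le
          linarith
        · have h7 := mul_le_mul_of_nonneg_left hmono1 hB.le
          have h8 := mul_le_mul_of_nonneg_left hmono2 hB.le
          linarith
  · have hw : ¬ 0 ≤ w := by omega
    simp only [hz, hw, if_false]
    rw [dist_neg_neg]
    have h := hD (-z).toNat (-w).toNat (by omega)
    have h1 : (-w).toNat - (-z).toNat = (z - w).natAbs := by omega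
    rw [h1] at h
    exact ⟨hA1.trans h.1, h.2.trans hB1⟩

end Pool.Agent.R672.DS
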