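import Pool.Agent.R672.DS.Block

namespace Pool.Agent.R672.DS

open Filter

/-! ## Odd floor -/

/-- The largest odd natural number `≤ t` (for `t ≥ 1`). -/
noncomputable def oddfl (t : ℝ) : ℕ := 2 * ⌊(t - 1) / 2⌋₊ + 1

lemma oddfl_odd (t : ℝ) : Odd (oddfl t) := ⟨⌊(t - 1) / 2⌋₊, rfl⟩

lemma oddfl_le {t : ℝ} (ht : 1 ≤ t) : (oddfl t : ℝ) ≤ t := by
  have h := Nat.floor_le (show (0 : ℝ) ≤ (t - 1) / 2 by linarith)
  simp only [oddfl]
  push_cast
  linarith

lemma le_oddfl {t : ℝ} : t ≤ 3 * (oddfl t : ℝ) := by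
  have h := Nat.lt_floor_add_one ((t - 1) / 2)
  have h0 : (0 : ℝ) ≤ (⌊(t - 1) / 2⌋₊ : ℝ) := Nat.cast_nonneg _
  simp only [oddfl]
  push_cast
  linarith

lemma le_oddfl_of_odd {t : ℝ} {R : ℕ} (hR : Odd R) (h : (R : ℝ) ≤ t) : R ≤ oddfl t := by
  obtain ⟨q, rfl⟩ := hR
  have : q ≤ ⌊(t - 1) / 2⌋₊ := by
    apply Nat.le_floor
    push_cast at h
    linarith
  simp only [oddfl]
  omega

/-! ## Global form of the criterion -/

lemma crit_global {k : ℕ} {f : ℕ → ℝ} (hf : IsRate f) (hc : Crit k f) :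
    ∃ C ε : ℝ, 1 ≤ C ∧ 0 < ε ∧ ∀ M N : ℕ, 1 ≤ M → M ≤ N →
      f N ≤ C * ((N : ℝ) / M * f M) ∧ ((N : ℝ) / M) ^ (1 / (k : ℝ) + ε) * f M ≤ C * f N := by
  obtain ⟨C0, ε, N0, hC0, hε, hN0, h⟩ := hc
  obtain ⟨fpos, fmono, -, -⟩ := hf
  set β : ℝ := 1 / (k : ℝ) + ε with hβ
  have hβ0 : 0 ≤ β := by positivity
  have hf1 : 0 < f 1 := fpos 1 le_rfl
  set D : ℝ := f N0 / f 1 with hD
  have hD1 : 1 ≤ D := by
    rw [hD, one_le_div hf1]; exact fmono 1 N0 le_rfl hN0
  set E : ℝ := (N0 : ℝ) ^ β with hE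
  have hN0r : (1 : ℝ) ≤ N0 := by exact_mod_cast hN0
  have hE1 : 1 ≤ E := Real.one_le_rpow hN0r hβ0
  have hDf : f N0 = D * f 1 := by rw [hD]; field_simp
  set C : ℝ := (C0 + 1) * D * E with hC
  have hDE : 1 ≤ D * E := by nlinarith
  have hCC0 : C0 ≤ C := by
    have : C = (C0 + 1) * (D * E) := by rw [hC]; ring
    rw [this]; nlinarith
  have hC1 : 1 ≤ C := by
    have : C = (C0 + 1) * (D * E) := by rw [hC]; ring
    rw [this]; nlinarith
  have hCD : D ≤ C := by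
    have : C = D * ((C0 + 1) * E) := by rw [hC]; ring
    rw [this]; nlinarith
  have hCC0D : C0 * D ≤ C := by
    have h1 : C = (C0 + 1) * D * E := rfl
    have h2 : (C0 + 1) * D ≤ (C0 + 1) * D * E := by
      have : 0 ≤ (C0 + 1) * D := by positivity
      nlinarith
    nlinarith
  have hCE : E ≤ C := by
    have : C = E * ((C0 + 1) * D) := by rw [hC]; ring
    rw [this]; nlinarith
  have hCC0E : C0 * E ≤ C := by
    have h2 : C = (C0 * E) * D + D * E := by rw [hC]; ring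
    have h3 : 0 ≤ C0 * E := by positivity
    nlinarith
  refine ⟨C, ε, hC1, hε, ?_⟩
  intro M N hM hMN
  have hMr : (1 : ℝ) ≤ M := by exact_mod_cast hM
  have hM0 : (0 : ℝ) < M := by linarith
  have hNr : (M : ℝ) ≤ N := by exact_mod_cast hMN
  have hN0' : (0 : ℝ) < N := by linarith
  have hfM : 0 < f M := fpos M hM
  have hfN : 0 < f N := fpos N (hM.trans hMN)
  have hfMN : f M ≤ f N := fmono M N hM hMN
  have hf1M : f 1 ≤ f M := fmono 1 M le_rfl hM
  have hq1 : 1 ≤ (N : ℝ) / M := by rw [one_le_div hM0]; exact hNr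
  rcases le_or_gt N0 M with hNM | hNM
  · obtain ⟨h1, h2⟩ := h M N hNM hMN
    constructor
    · rw [div_le_iff₀ hN0'] at h1
      have h3 : C0 * (f M / M) * N = C0 * ((N : ℝ) / M * f M) := by field_simp
      rw [h3] at h1
      refine h1.trans (mul_le_mul_of_nonneg_right hCC0 (by positivity))
    · exact h2.trans (mul_le_mul_of_nonneg_right hCC0 hfN.le)
  · have hMN0 : (M : ℝ) ≤ N0 := by exact_mod_cast hNM.le
    have hfMN0 : f M ≤ f N0 := fmono M N0 hM hNM.le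
    rcases le_or_gt N0 N with hN | hN
    · obtain ⟨h1, h2⟩ := h N0 N le_rfl hN
      have hN0N : (N0 : ℝ) ≤ N := by exact_mod_cast hN
      have hq2 : (N : ℝ) / N0 ≤ N / M := div_le_div_of_nonneg_left hN0'.le hM0 hMN0
      constructor
      · rw [div_le_iff₀ hN0'] at h1
        have h3 : C0 * (f N0 / N0) * N = C0 * ((N : ℝ) / N0 * f N0) := by field_simp
        rw [h3, hDf] at h1
        calc f N ≤ C0 * ((N : ℝ) / N0 * (D * f 1)) := h1
          _ = (C0 * D) * ((N : ℝ) / N0 * f 1) := by ring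
          _ ≤ C * ((N : ℝ) / M * f M) := by
            apply mul_le_mul hCC0D _ (by positivity) (by linarith)
            exact mul_le_mul hq2 hf1M hf1.le (by positivity)
      · have h4 : (N : ℝ) / M ≤ N0 * (N / N0) := by
          rw [mul_div_cancel₀ _ (by linarith : (N0 : ℝ) ≠ 0)]
          rw [div_le_iff₀ hM0]; nlinarith
        calc ((N : ℝ) / M) ^ β * f M ≤ (N0 * ((N : ℝ) / N0)) ^ β * f N0 := by
              apply mul_le_mul _ hfMN0 hfM.le (by positivity)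
              exact Real.rpow_le_rpow (by positivity) h4 hβ0
          _ = E * (((N : ℝ) / N0) ^ β * f N0) := by
              rw [Real.mul_rpow (by linarith) (by positivity)]; ring
          _ ≤ E * (C0 * f N) := mul_le_mul_of_nonneg_left h2 (by linarith)
          _ = (C0 * E) * f N := by ring
          _ ≤ C * f N := mul_le_mul_of_nonneg_right hCC0E hfN.le
    · have hfNN0 : f N ≤ f N0 := fmono N N0 (hM.trans hMN) hN.le
      have hNN0 : (N : ℝ) ≤ N0 := by exact_mod_cast hN.le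
      constructor
      · calc f N ≤ D * f 1 := by rw [← hDf]; exact hfNN0
          _ ≤ C * (1 * f M) := by
            rw [one_mul]
            exact mul_le_mul hCD hf1M hf1.le (by linarith)
          _ ≤ C * ((N : ℝ) / M * f M) := by
            apply mul_le_mul_of_nonneg_left _ (by linarith)
            exact mul_le_mul_of_nonneg_right hq1 hfM.le
      · calc ((N : ℝ) / M) ^ β * f M ≤ E * f N := by
              apply mul_le_mul _ hfMN hfM.le (by linarith)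
              apply Real.rpow_le_rpow (by positivity) _ hβ0
              rw [div_le_iff₀ hM0]; nlinarith
          _ ≤ C * f N := mul_le_mul_of_nonneg_right hCE hfN.le

/-! ## The choice of the base -/

lemma exists_base {k : ℕ} (hk : 2 ≤ k) {C ε : ℝ} (hC : 1 ≤ C) (hε : 0 < ε) :
    ∃ m : ℕ, 5 ≤ m ∧ C * (27 * m) ≤ ((m : ℝ) ^ k) ^ (1 / (k : ℝ) + ε) := by
  have hk0 : (0 : ℝ) < k := by positivity
  have h1 : Tendsto (fun m : ℕ => (m : ℝ) ^ ((k : ℝ) * ε)) atTop atTop :=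
    (tendsto_rpow_atTop (by positivity)).comp tendsto_natCast_atTop_atTop
  obtain ⟨m, hm⟩ := ((h1.eventually_ge_atTop (C * 27)).and (eventually_ge_atTop 5)).exists
  refine ⟨m, hm.2, ?_⟩
  have hm0 : (0 : ℝ) < m := by
    have : 5 ≤ m := hm.2
    positivity
  have h2 : ((m : ℝ) ^ k) ^ (1 / (k : ℝ) + ε) = m * (m : ℝ) ^ ((k : ℝ) * ε) := by
    rw [← Real.rpow_natCast, ← Real.rpow_mul hm0.le]
    have : (k : ℝ) * (1 / (k : ℝ) + ε) = 1 + k * ε := by field_simp
    rw [this, Real.rpow_add hm0, Real.rpow_one]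
  rw [h2]
  nlinarith [hm.1]

/-! ## The scales -/

/-- The lengths of the blocks. -/
noncomputable def sseq (L : ℕ) (F : ℕ → ℝ) : ℕ → ℝ
  | 0 => 1
  | j + 1 => (oddfl (min (L : ℝ) (F (L ^ (j + 1)) / sseq L F j)) : ℝ) * sseq L F j

/-- The ratios. -/
noncomputable def rseq (L : ℕ) (F : ℕ → ℝ) (j : ℕ) : ℕ :=
  oddfl (min (L : ℝ) (F (L ^ (j + 1)) / sseq L F j))

lemma sseq_succ (L : ℕ) (F : ℕ → ℝ) (j : ℕ) :
    sseq L F (j + 1) = (rseq L F j : ℝ) * sseq L F j := rfl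

lemma sseq_inv {L R : ℕ} {F : ℕ → ℝ} {C β : ℝ} (hC : 1 ≤ C) (hF1 : F 1 = 1)
    (Fpos : ∀ n, 1 ≤ n → 0 < F n) (hR : Odd R) (hRL : R ≤ L) (hL : Odd L)
    (hup : ∀ M N : ℕ, 1 ≤ M → M ≤ N → F N ≤ C * ((N : ℝ) / M * F M))
    (hlow : ∀ M N : ℕ, 1 ≤ M → M ≤ N → ((N : ℝ) / M) ^ β * F M ≤ C * F N)
    (hRβ : C * R ≤ (L : ℝ) ^ β) (j : ℕ) :
    (0 < sseq L F j ∧ sseq L F j ≤ F (L ^ j) ∧
      ∃ i, i ≤ j ∧ (L : ℝ) ^ (j - i) * F (L ^ i) ≤ 3 * sseq L F j) ∧
      R ≤ rseq L F j ∧ rseq L F j ≤ L ∧ Odd (rseq L F j) := by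
  have hR1 : 1 ≤ R := hR.pos
  have hL1 : 1 ≤ L := hR1.trans hRL
  have hLr : (1 : ℝ) ≤ L := by exact_mod_cast hL1
  have hpow : ∀ j, 1 ≤ L ^ j := fun j => Nat.one_le_pow _ _ hL1
  have rstep : ∀ j, 0 < sseq L F j → sseq L F j ≤ F (L ^ j) →
      R ≤ rseq L F j ∧ rseq L F j ≤ L ∧ Odd (rseq L F j) ∧
      (rseq L F j : ℝ) * sseq L F j ≤ F (L ^ (j + 1)) ∧
      ((L : ℝ) = rseq L F j ∨ F (L ^ (j + 1)) ≤ 3 * ((rseq L F j : ℝ) * sseq L F j)) := by
    intro j hs hsF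
    have h1 := hlow (L ^ j) (L ^ (j + 1)) (hpow j) (Nat.pow_le_pow_right hL1 (Nat.le_succ j))
    have h2 : ((L ^ (j + 1) : ℕ) : ℝ) / ((L ^ j : ℕ) : ℝ) = L := by
      push_cast; rw [pow_succ]; field_simp
    rw [h2] at h1
    have hFj : 0 < F (L ^ j) := Fpos _ (hpow j)
    have h3 : C * (R * F (L ^ j)) ≤ C * F (L ^ (j + 1)) := by
      calc C * (R * F (L ^ j)) = (C * R) * F (L ^ j) := by ring
        _ ≤ (L : ℝ) ^ β * F (L ^ j) := mul_le_mul_of_nonneg_right hRβ hFj.le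
        _ ≤ _ := h1
    have h4 : R * F (L ^ j) ≤ F (L ^ (j + 1)) := le_of_mul_le_mul_left h3 (by linarith)
    have h5 : (R : ℝ) ≤ F (L ^ (j + 1)) / sseq L F j := by
      rw [le_div_iff₀ hs]
      refine le_trans ?_ h4
      exact mul_le_mul_of_nonneg_left hsF (Nat.cast_nonneg _)
    have h6 : (R : ℝ) ≤ min (L : ℝ) (F (L ^ (j + 1)) / sseq L F j) :=
      le_min (by exact_mod_cast hRL) h5
    have h7 : (1 : ℝ) ≤ min (L : ℝ) (F (L ^ (j + 1)) / sseq L F j) :=
      le_trans (by exact_mod_cast hR1) h6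
    have h8 := oddfl_le h7
    have h9 : (rseq L F j : ℝ) ≤ L := h8.trans (min_le_left _ _)
    have h10 : (rseq L F j : ℝ) ≤ F (L ^ (j + 1)) / sseq L F j := h8.trans (min_le_right _ _)
    refine ⟨le_oddfl_of_odd hR h6, by exact_mod_cast h9, oddfl_odd _, ?_, ?_⟩
    · rwa [le_div_iff₀ hs] at h10
    · rcases le_total (L : ℝ) (F (L ^ (j + 1)) / sseq L F j) with h | h
      · left
        have h11 : L ≤ rseq L F j := by
          apply le_oddfl_of_odd hL
          rw [min_eq_left h]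
        apply le_antisymm _ h9
        exact_mod_cast h11
      · right
        have h11 : F (L ^ (j + 1)) / sseq L F j ≤ 3 * (rseq L F j : ℝ) := by
          have := @le_oddfl (min (L : ℝ) (F (L ^ (j + 1)) / sseq L F j))
          rw [min_eq_right h] at this
          simp only [rseq]
          rw [min_eq_right h]
          exact this
        rw [div_le_iff₀ hs] at h11
        linarith
  have main : ∀ j, 0 < sseq L F j ∧ sseq L F j ≤ F (L ^ j) ∧
      ∃ i, i ≤ j ∧ (L : ℝ) ^ (j - i) * F (L ^ i) ≤ 3 * sseq L F j := by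
    intro j
    induction j with
    | zero =>
      refine ⟨by simp [sseq], by simp [sseq, hF1], 0, le_rfl, ?_⟩
      simp [sseq, hF1]
    | succ j ih =>
      obtain ⟨hs, hsF, i, hij, hi⟩ := ih
      obtain ⟨g1, g2, g3, g4, g5⟩ := rstep j hs hsF
      have hr0 : (0 : ℝ) < rseq L F j := by
        have : 0 < rseq L F j := by omega
        exact_mod_cast this
      rw [sseq_succ]
      refine ⟨by positivity, g4, ?_⟩
      rcases g5 with g5 | g5
      · refine ⟨i, by omega, ?_⟩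
        rw [← g5, show j + 1 - i = (j - i) + 1 by omega, pow_succ]
        nlinarith
      · refine ⟨j + 1, le_rfl, ?_⟩
        simp only [Nat.sub_self, pow_zero, one_mul]
        exact g5
  obtain ⟨hs, hsF, hex⟩ := main j
  obtain ⟨g1, g2, g3, -, -⟩ := rstep j hs hsF
  exact ⟨⟨hs, hsF, hex⟩, g1, g2, g3⟩

end Pool.Agent.R672.DS
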